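import Pool.Agent.Lib.MP_a24e3f_co.M4.Explore

/-!
# An order of type `ω` of an infinite connected locally finite graph: later neighbours
-/

set_option autoImplicit false

namespace Pool.Agent.Lib.MP_a24e3f_co.M4

variable {V : Type} {G : SimpleGraph V}

/-- an initial part of the order -/
structure GoodL (G : SimpleGraph V) (L : List V) : Prop where
  nodup : L.Nodup
  nb : ∀ l₁ v l₂, L = l₁ ++ v :: l₂ → ∃ w, G.Adj v w ∧ w ∉ l₁
  inf : ∀ v, v ∉ L → {w | Rch G {z | z ∉ L} v w}.Infinite

theorem reach_congr {U : Set V} {v w : V} (h : Rch G U v w) :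
    {y | Rch G U v y} = {y | Rch G U w y} := by
  ext y
  exact ⟨fun hy => h.symm.trans hy, fun hy => h.trans hy⟩

theorem good_step (hlf : ∀ v, (G.neighborSet v).Finite) {L : List V} (hL : GoodL G L) {u : V}
    (hu : u ∉ L) : ∃ l : List V, GoodL G (L ++ l) ∧ u ∈ l := by
  classical
  let U : Set V := {z | z ∉ L ∧ z ≠ u}
  let T : Set V := {z | z = u ∨ (z ∈ U ∧ {y | Rch G U z y}.Finite ∧
    ∃ w, G.Adj u w ∧ w ∈ U ∧ Rch G U w z)}
  have huT : u ∈ T := Or.inl rfl
  have hTfin : T.Finite := by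
    have h1 : (⋃ w ∈ {w | w ∈ G.neighborSet u ∧ {y | Rch G U w y}.Finite},
        {y | Rch G U w y}).Finite :=
      Set.Finite.biUnion ((hlf u).subset fun w hw => hw.1) fun w hw => hw.2
    refine ((Set.finite_singleton u).union h1).subset ?_
    rintro z (hz | ⟨-, hzf, w, huw, -, hwz⟩)
    · exact Or.inl hz
    · right
      rw [Set.mem_iUnion₂]
      exact ⟨w, ⟨huw, by rw [reach_congr hwz]; exact hzf⟩, hwz⟩
  have hTconn : ∀ z ∈ T, Rch G T u z := by
    rintro z (rfl | ⟨hzU, hzf, w, huw, hwU, hwz⟩)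
    · exact Relation.ReflTransGen.refl
    · have hmem : ∀ y ∈ U, Rch G U w y → y ∈ T := by
        intro y hyU hwy
        refine Or.inr ⟨hyU, ?_, w, huw, hwU, hwy⟩
        rw [← reach_congr hwy, reach_congr hwz]
        exact hzf
      exact (Rch.single huw huT (hmem w hwU Relation.ReflTransGen.refl)).trans
        (Rch.mono hwz hmem)
  obtain ⟨l, hl1, hl2, hl3⟩ := explore G hTfin huT hTconn
  have hdisj : ∀ z ∈ T, z ∉ L := by
    rintro z (rfl | hz)
    · exact hu
    · exact hz.1.1
  have hnd : (L ++ l).Nodup := by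
    rw [List.nodup_append]
    refine ⟨hL.nodup, hl1, ?_⟩
    rintro a ha b hb rfl
    exact hdisj a ((hl2 a).1 hb) ha
  -- vertices outside of `T` have infinite reach
  have hout : ∀ v, v ∉ L → v ∉ T → {y | Rch G U v y}.Infinite := by
    intro v hvL hvT hfin
    have hvu : v ≠ u := fun h => hvT (Or.inl h)
    have hvU : v ∈ U := ⟨hvL, hvu⟩
    have h1 : ¬ {w | Rch G {z | z ∉ L} v w} ⊆ {y | Rch G U v y} :=
      fun h => hL.inf v hvL (hfin.subset h)
    rw [Set.not_subset] at h1
    obtain ⟨w, hw1, hw2⟩ := h1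
    obtain ⟨a, b, ⟨hab, haL, hbL⟩, ha, hb⟩ := boundary (P := fun y => Rch G U v y) hw1
      Relation.ReflTransGen.refl hw2
    have haU : a ∈ U := Rch.mem ha hvU
    have hbu : b = u := by
      by_contra hbu
      exact hb (ha.trans (Rch.single hab haU ⟨hbL, hbu⟩))
    subst hbu
    exact hvT (Or.inr ⟨hvU, hfin, a, hab.symm, haU, ha.symm⟩)
  -- `u` has a neighbour outside
  have hnbu : ∃ w, G.Adj u w ∧ w ∉ L ∧ w ∉ T := by
    by_contra hcon
    push Not at hcon
    have h1 : {w | Rch G {z | z ∉ L} u w} ⊆ T := by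
      intro z hz
      induction (show Rch G {z | z ∉ L} u z from hz) with
      | refl => exact huT
      | @tail b c hub hbc ih =>
        have hbT : b ∈ T := ih hub
        by_cases hcu : c = u
        · exact Or.inl hcu
        have hcU : c ∈ U := ⟨hbc.2.2, hcu⟩
        rcases hbT with rfl | ⟨hbU, hbf, w, huw, hwU, hwb⟩
        · exact hcon c hbc.1 hbc.2.2
        · have hbc' : Rch G U b c := Rch.single hbc.1 hbU hcU
          refine Or.inr ⟨hcU, ?_, w, huw, hwU, hwb.trans hbc'⟩
          rw [← reach_congr hbc']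
          exact hbf
    exact hL.inf u hu (hTfin.subset h1)
  refine ⟨l, ⟨hnd, ?_, ?_⟩, (hl2 u).2 huT⟩
  · -- neighbours
    have hmain : ∀ a' v l₂, l = a' ++ v :: l₂ → ∃ w, G.Adj v w ∧ w ∉ L ++ a' := by
      intro a' v l₂ hl
      rcases hl3 a' v l₂ hl with ⟨-, hvu⟩ | ⟨w, hw, hvw⟩
      · subst hvu
        obtain ⟨w, h1, h2, h3⟩ := hnbu
        refine ⟨w, h1, ?_⟩
        rw [List.mem_append]
        rintro (h | h)
        · exact h2 h
        · refine h3 ((hl2 w).1 ?_)
          rw [hl]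
          exact List.mem_append_left _ h
      · refine ⟨w, hvw, ?_⟩
        have hwl : w ∈ l := by
          rw [hl]
          exact List.mem_append_right _ (List.mem_cons_of_mem _ hw)
        rw [List.mem_append]
        rintro (h | h)
        · exact hdisj w ((hl2 w).1 hwl) h
        · rw [hl] at hl1
          have h1 := List.nodup_append.1 hl1
          exact h1.2.2 w h w (List.mem_cons_of_mem _ hw) rfl
    intro l₁ v l₂ hl
    rcases List.append_eq_append_iff.1 hl with ⟨a', rfl, h2⟩ | ⟨c', h1, h2⟩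
    · exact hmain a' v l₂ h2
    · cases c' with
      | nil =>
        simp only [List.append_nil] at h1
        simp only [List.nil_append] at h2
        obtain ⟨w, h3, h4⟩ := hmain [] v l₂ (by simpa using h2.symm)
        refine ⟨w, h3, ?_⟩
        rw [← h1]
        simpa using h4
      | cons y c' =>
        simp only [List.cons_append, List.cons.injEq] at h2
        obtain ⟨rfl, -⟩ := h2
        exact hL.nb l₁ v c' h1
  · -- infinite reach
    intro v hv
    rw [List.mem_append, not_or] at hv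
    have hvT : v ∉ T := fun h => hv.2 ((hl2 v).2 h)
    have hvU : v ∈ U := ⟨hv.1, fun h => hvT (Or.inl h)⟩
    have hinf := hout v hv.1 hvT
    refine hinf.mono ?_
    intro y hy
    refine Rch.mono (show Rch G U v y from hy) ?_
    intro a haU hva
    rw [Set.mem_ofPred_eq, List.mem_append, not_or]
    refine ⟨haU.1, fun hal => ?_⟩
    rcases (hl2 a).1 hal with hau | ⟨-, haf, w, huw, hwU, hwa⟩
    · exact haU.2 hau
    · refine hinf ?_
      rw [reach_congr hva]
      exact haf

theorem good_seq (hlf : ∀ v, (G.neighborSet v).Finite) [Infinite V]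
    (hc : ∀ u v : V, Relation.ReflTransGen G.Adj u v) (i : V → ℕ) (hi : Function.Injective i) :
    ∃ L : ℕ → List V, (∀ n, GoodL G (L n)) ∧ (∀ n, ∃ t, L (n + 1) = L n ++ t) ∧
      ∀ u, u ∈ L (i u + 1) := by
  classical
  have h0 : GoodL G ([] : List V) := by
    refine ⟨List.nodup_nil, ?_, ?_⟩
    · intro l₁ v l₂ h
      simp at h
    · intro v _
      have : {w | Rch G {z | z ∉ ([] : List V)} v w} = Set.univ := by
        ext w
        simp only [Set.mem_ofPred_eq, Set.mem_univ, iff_true]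
        exact Relation.ReflTransGen.mono (fun a b hab => ⟨hab, by simp, by simp⟩) _ _ (hc v w)
      rw [this]
      exact Set.infinite_univ
  have hstep : ∀ (n : ℕ) (l : {l : List V // GoodL G l}), ∃ l' : {l : List V // GoodL G l},
      (∃ t, l'.1 = l.1 ++ t) ∧ ∀ u, i u = n → u ∈ l'.1 := by
    intro n l
    by_cases h : ∃ u, i u = n ∧ u ∉ l.1
    · obtain ⟨u, hun, hul⟩ := h
      obtain ⟨t, ht, hut⟩ := good_step hlf l.2 hul
      refine ⟨⟨l.1 ++ t, ht⟩, ⟨t, rfl⟩, ?_⟩
      intro v hv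
      have : v = u := hi (hv.trans hun.symm)
      subst this
      exact List.mem_append_right _ hut
    · push Not at h
      exact ⟨l, ⟨[], by simp⟩, fun u hu => h u hu⟩
  choose F hF1 hF2 using hstep
  let S : ℕ → {l : List V // GoodL G l} := fun n => Nat.rec ⟨[], h0⟩ (fun n l => F n l) n
  refine ⟨fun n => (S n).1, fun n => (S n).2, fun n => hF1 n (S n), fun u => hF2 (i u) (S (i u)) u rfl⟩

/-- order of type `ω` -/
theorem order_infinite (hlf : ∀ v, (G.neighborSet v).Finite) [Infinite V]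
    (hc : ∀ u v : V, Relation.ReflTransGen G.Adj u v) (i : V → ℕ) (hi : Function.Injective i) :
    ∃ e : V → ℕ, Function.Injective e ∧ ∀ v, ∃ w, G.Adj v w ∧ e v < e w := by
  classical
  obtain ⟨L, hL1, hL2, hL3⟩ := good_seq hlf hc i hi
  have hpre : ∀ n m, n ≤ m → ∃ t, L m = L n ++ t := by
    intro n m hnm
    induction m, hnm using Nat.le_induction with
    | base => exact ⟨[], by simp⟩
    | succ m _ ih =>
      obtain ⟨t, ht⟩ := ih
      obtain ⟨s, hs⟩ := hL2 m
      exact ⟨t ++ s, by rw [hs, ht, List.append_assoc]⟩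
  have hidx : ∀ v m, i v + 1 ≤ m → v ∈ L m ∧ (L m).idxOf v = (L (i v + 1)).idxOf v := by
    intro v m hm
    obtain ⟨t, ht⟩ := hpre _ _ hm
    rw [ht]
    exact ⟨List.mem_append_left _ (hL3 v), List.idxOf_append_of_mem (hL3 v)⟩
  refine ⟨fun v => (L (i v + 1)).idxOf v, ?_, ?_⟩
  · intro v w hvw
    simp only at hvw
    obtain ⟨h1, h2⟩ := hidx v (max (i v + 1) (i w + 1)) (le_max_left _ _)
    obtain ⟨h3, h4⟩ := hidx w (max (i v + 1) (i w + 1)) (le_max_right _ _)
    rw [← h2, ← h4] at hvw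
    exact (List.idxOf_inj h1).1 hvw
  · intro v
    obtain ⟨l₁, l₂, hl⟩ := List.append_of_mem (hL3 v)
    obtain ⟨w, hvw, hw⟩ := (hL1 _).nb l₁ v l₂ hl
    refine ⟨w, hvw, ?_⟩
    obtain ⟨h1, h2⟩ := hidx v (max (i v + 1) (i w + 1)) (le_max_left _ _)
    obtain ⟨h3, h4⟩ := hidx w (max (i v + 1) (i w + 1)) (le_max_right _ _)
    obtain ⟨t, ht⟩ := hpre (i v + 1) (max (i v + 1) (i w + 1)) (le_max_left _ _)
    simp only
    rw [← h2, ← h4]
    refine idx_lt (l₁ := l₁) (l₂ := l₂ ++ t) ?_ (hL1 _).nodup hw hvw.ne'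
    rw [ht, hl]
    simp

end Pool.Agent.Lib.MP_a24e3f_co.M4
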