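import Mathlib
import Pool.Agent.Lib.MP_a24e3f_co.Defs

/-!
# Disjoint unions of rational graphs
-/

set_option autoImplicit false

open MeasureTheory

namespace Pool.Agent.Lib.MP_a24e3f_co.M4

/-- recursive choice of a sequence -/
theorem exists_seq {α : Type} [Nonempty α] (P : (ℕ → α) → ℕ → α → Prop)
    (hP : ∀ σ σ' n a, (∀ m, m < n → σ m = σ' m) → P σ n a → P σ' n a)
    (hex : ∀ σ n, ∃ a, P σ n a) : ∃ τ : ℕ → α, ∀ n, P τ n (τ n) := by
  classical
  choose c hc using hex
  let S : ℕ → (ℕ → α) := fun n =>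
    Nat.rec (fun _ => Classical.arbitrary α) (fun n σ => Function.update σ n (c σ n)) n
  have hS : ∀ n, S (n + 1) = Function.update (S n) n (c (S n) n) := fun n => rfl
  have hst : ∀ m k, S (m + 1 + k) m = S (m + 1) m := by
    intro m k
    induction k with
    | zero => rfl
    | succ k ih =>
      rw [show m + 1 + (k + 1) = (m + 1 + k) + 1 by ring, hS, Function.update_of_ne (by omega), ih]
  refine ⟨fun n => S (n + 1) n, fun n => ?_⟩
  have h1 : S (n + 1) n = c (S n) n := by rw [hS, Function.update_self]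
  simp only
  rw [h1]
  refine hP (S n) _ n _ (fun m hm => ?_) (hc (S n) n)
  obtain ⟨k, rfl⟩ : ∃ k, n = m + 1 + k := ⟨n - (m + 1), by omega⟩
  exact hst m k

theorem line_null (p q : Plane) : volume (↑(line[ℝ, p, q]) : Set Plane) = 0 := by
  refine Measure.addHaar_affineSubspace volume _ ?_
  intro h
  have h1 : Collinear ℝ ({p, q} : Set Plane) := collinear_pair ℝ p q
  have h2 := h1.finrank_le_one
  have h3 : vectorSpan ℝ ({p, q} : Set Plane) = ⊤ := by
    rw [← direction_affineSpan, h, AffineSubspace.direction_top]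
  rw [h3, finrank_top, finrank_euclideanSpace_fin] at h2
  omega

theorem mem_line_iff (p q z : Plane) : z ∈ line[ℝ, p, q] ↔ ∃ s : ℝ, s • (q - p) = z - p := by
  have h : z = (z - p) +ᵥ p := by simp
  conv_lhs => rw [h]
  exact vadd_left_mem_affineSpan_pair

theorem sphere_ae (p q : Plane) (r : ℝ) : ∀ᵐ t : Plane, dist p (q + t) ≠ r := by
  have h : {t : Plane | ¬ dist p (q + t) ≠ r} ⊆ Metric.sphere (p - q) r := by
    intro t ht
    rw [Set.mem_ofPred_eq, not_not] at ht
    rw [Metric.mem_sphere, ← ht, dist_comm, dist_eq_norm, dist_eq_norm]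
    congr 1
    abel
  exact measure_mono_null h (Measure.addHaar_sphere volume _ _)

theorem line_ae1 {p q : Plane} (hpq : p ≠ q) (r : Plane) :
    ∀ᵐ t : Plane, ¬ Collinear ℝ {p, q, r + t} := by
  have h : {t : Plane | ¬ ¬ Collinear ℝ {p, q, r + t}} ⊆ line[ℝ, p - r, q - r] := by
    intro t ht
    rw [Set.mem_ofPred_eq, not_not] at ht
    have h1 : r + t ∈ line[ℝ, p, q] :=
      ht.mem_affineSpan_of_mem_of_ne (by simp) (by simp) (by simp) hpq
    rw [mem_line_iff] at h1
    obtain ⟨s, hs⟩ := h1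
    rw [SetLike.mem_coe, mem_line_iff]
    refine ⟨s, ?_⟩
    rw [sub_sub_sub_cancel_right, hs]
    abel
  exact measure_mono_null h (line_null _ _)

theorem line_ae2 {q r : Plane} (hqr : q ≠ r) (p : Plane) :
    ∀ᵐ t : Plane, ¬ Collinear ℝ {p, q + t, r + t} := by
  have h : {t : Plane | ¬ ¬ Collinear ℝ {p, q + t, r + t}} ⊆ line[ℝ, p - q, p - r] := by
    intro t ht
    rw [Set.mem_ofPred_eq, not_not] at ht
    have h1 : p ∈ line[ℝ, q + t, r + t] :=
      ht.mem_affineSpan_of_mem_of_ne (by simp) (by simp) (by simp)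
        (fun hh => hqr (add_right_cancel hh))
    rw [mem_line_iff] at h1
    obtain ⟨s, hs⟩ := h1
    rw [SetLike.mem_coe, mem_line_iff]
    refine ⟨s, ?_⟩
    rw [add_sub_add_right_eq_sub] at hs
    have e1 : s • (p - r - (p - q)) = -(s • (r - q)) := by
      rw [← smul_neg]
      congr 1
      abel
    rw [e1, hs]
    abel
  exact measure_mono_null h (line_null _ _)

theorem collinear_add {p q r : Plane} (t : Plane) (h : Collinear ℝ {p + t, q + t, r + t}) :
    Collinear ℝ {p, q, r} := by
  rw [collinear_iff_of_mem (p₀ := p + t) (by simp)] at h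
  obtain ⟨v, hv⟩ := h
  rw [collinear_iff_of_mem (p₀ := p) (by simp)]
  refine ⟨v, fun x hx => ?_⟩
  obtain ⟨s, hs⟩ := hv (x + t) (by
    simp only [Set.mem_insert_iff, Set.mem_singleton_iff] at hx ⊢
    rcases hx with rfl | rfl | rfl <;> simp)
  refine ⟨s, ?_⟩
  simp only [vadd_eq_add] at hs ⊢
  have : x + t = (s • v + p) + t := by rw [hs]; abel
  exact add_right_cancel this

theorem union {V : Type} [Countable V] (G : SimpleGraph V) (κ : V → ℕ)
    (hκ : ∀ u v, G.Adj u v → κ u = κ v)
    (h : ∀ n, ∃ f : {v | κ v = n} → Plane, IsRationalRep (G.induce {v | κ v = n}) f) :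
    ∃ f : V → Plane, IsRationalRep G f := by
  choose f hf using h
  obtain ⟨g, hg⟩ : ∃ g : V → Plane, ∀ n u (hu : κ u = n), g u = f n ⟨u, hu⟩ := by
    refine ⟨fun v => f (κ v) ⟨v, rfl⟩, ?_⟩
    rintro n u rfl
    rfl
  have ginj : ∀ u v, κ u = κ v → g u = g v → u = v := by
    intro u v huv hg'
    rw [hg _ u huv, hg _ v rfl] at hg'
    exact congrArg Subtype.val ((hf _).injective hg')
  have gcol : ∀ u v w, κ u = κ w → κ v = κ w → u ≠ v → v ≠ w → u ≠ w →
      ¬ Collinear ℝ {g u, g v, g w} := by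
    intro u v w h1 h2 huv hvw huw
    rw [hg _ u h1, hg _ v h2, hg _ w rfl]
    exact (hf _).no_three_collinear _ _ _ (fun hh => huv (congrArg Subtype.val hh))
      (fun hh => hvw (congrArg Subtype.val hh)) (fun hh => huw (congrArg Subtype.val hh))
  have gadj : ∀ u v, κ u = κ v → u ≠ v → (G.Adj u v ↔ ∃ q : ℚ, dist (g u) (g v) = (q : ℝ)) := by
    intro u v h1 huv
    rw [hg _ u h1, hg _ v rfl]
    exact (hf _).adj_iff ⟨u, h1⟩ ⟨v, rfl⟩ (fun hh => huv (congrArg Subtype.val hh))
  let P : (ℕ → Plane) → ℕ → Plane → Prop := fun σ n t =>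
    (∀ u v, κ u < n → κ v = n → ∀ q : ℚ, dist (g u + σ (κ u)) (g v + t) ≠ (q : ℝ)) ∧
    (∀ u v w, κ u < n → κ v < n → κ w = n → g u + σ (κ u) ≠ g v + σ (κ v) →
      ¬ Collinear ℝ {g u + σ (κ u), g v + σ (κ v), g w + t}) ∧
    (∀ u v w, κ u < n → κ v = n → κ w = n → g v ≠ g w →
      ¬ Collinear ℝ {g u + σ (κ u), g v + t, g w + t})
  obtain ⟨τ, hτ⟩ := exists_seq P (by
    rintro σ σ' n a hσ ⟨h1, h2, h3⟩
    refine ⟨?_, ?_, ?_⟩
    · intro u v hu hv q
      rw [← hσ _ hu]
      exact h1 u v hu hv q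
    · intro u v w hu hv hw
      rw [← hσ _ hu, ← hσ _ hv]
      exact h2 u v w hu hv hw
    · intro u v w hu hv hw
      rw [← hσ _ hu]
      exact h3 u v w hu hv hw) (by
    intro σ n
    have h1 : ∀ᵐ t : Plane, P σ n t := by
      refine Filter.Eventually.and ?_ (Filter.Eventually.and ?_ ?_)
      · refine ae_all_iff.2 fun u => ae_all_iff.2 fun v => ?_
        refine Filter.eventually_imp_distrib_left.2 fun hu =>
          Filter.eventually_imp_distrib_left.2 fun hv => ae_all_iff.2 fun q => ?_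
        exact sphere_ae _ _ _
      · refine ae_all_iff.2 fun u => ae_all_iff.2 fun v => ae_all_iff.2 fun w => ?_
        refine Filter.eventually_imp_distrib_left.2 fun hu =>
          Filter.eventually_imp_distrib_left.2 fun hv =>
          Filter.eventually_imp_distrib_left.2 fun hw =>
          Filter.eventually_imp_distrib_left.2 fun huv => ?_
        exact line_ae1 huv _
      · refine ae_all_iff.2 fun u => ae_all_iff.2 fun v => ae_all_iff.2 fun w => ?_
        refine Filter.eventually_imp_distrib_left.2 fun hu =>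
          Filter.eventually_imp_distrib_left.2 fun hv =>
          Filter.eventually_imp_distrib_left.2 fun hw =>
          Filter.eventually_imp_distrib_left.2 fun huv => ?_
        exact line_ae2 huv _
    exact h1.exists)
  have hdist : ∀ u v, κ u ≠ κ v → ∀ q : ℚ, dist (g u + τ (κ u)) (g v + τ (κ v)) ≠ (q : ℝ) := by
    intro u v huv q
    rcases lt_or_gt_of_ne huv with hlt | hlt
    · exact (hτ (κ v)).1 u v hlt rfl q
    · rw [dist_comm]
      exact (hτ (κ u)).1 v u hlt rfl q
  have hinj : ∀ u v, g u + τ (κ u) = g v + τ (κ v) → u = v := by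
    intro u v huv
    by_cases h1 : κ u = κ v
    · rw [h1] at huv
      exact ginj u v h1 (add_right_cancel huv)
    · have := hdist u v h1 0
      rw [huv, dist_self] at this
      simp at this
  have key : ∀ u v w, κ u ≤ κ v → κ v ≤ κ w → u ≠ v → v ≠ w → u ≠ w →
      ¬ Collinear ℝ {g u + τ (κ u), g v + τ (κ v), g w + τ (κ w)} := by
    intro u v w h1 h2 huv hvw huw
    rcases h2.lt_or_eq with h3 | h3
    · exact (hτ (κ w)).2.1 u v w (h1.trans_lt h3) h3 rfl (fun hh => huv (hinj u v hh))
    · rcases h1.lt_or_eq with h4 | h4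
      · have := (hτ (κ w)).2.2 u v w (h3 ▸ h4) h3 rfl (fun hh => hvw (ginj v w h3 hh))
        rw [h3]
        exact this
      · intro hcol
        have h5 : κ u = κ w := h4.trans h3
        rw [h5, h3] at hcol
        exact gcol u v w h5 h3 huv hvw huw (collinear_add _ hcol)
  refine ⟨fun v => g v + τ (κ v), ⟨fun u v => hinj u v, ?_, ?_⟩⟩
  · intro u v w huv hvw huw
    have p1 : ({g u + τ (κ u), g v + τ (κ v), g w + τ (κ w)} : Set Plane) =
        {g v + τ (κ v), g u + τ (κ u), g w + τ (κ w)} := Set.insert_comm _ _ _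
    have p2 : ({g u + τ (κ u), g v + τ (κ v), g w + τ (κ w)} : Set Plane) =
        {g u + τ (κ u), g w + τ (κ w), g v + τ (κ v)} := by
      rw [Set.pair_comm]
    have p3 : ({g v + τ (κ v), g u + τ (κ u), g w + τ (κ w)} : Set Plane) =
        {g v + τ (κ v), g w + τ (κ w), g u + τ (κ u)} := by
      rw [Set.pair_comm]
    have p4 : ({g u + τ (κ u), g w + τ (κ w), g v + τ (κ v)} : Set Plane) =
        {g w + τ (κ w), g u + τ (κ u), g v + τ (κ v)} := Set.insert_comm _ _ _
    have p5 : ({g v + τ (κ v), g w + τ (κ w), g u + τ (κ u)} : Set Plane) =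
        {g w + τ (κ w), g v + τ (κ v), g u + τ (κ u)} := Set.insert_comm _ _ _
    rcases le_total (κ u) (κ v) with h1 | h1
    · rcases le_total (κ v) (κ w) with h2 | h2
      · exact key u v w h1 h2 huv hvw huw
      · rcases le_total (κ u) (κ w) with h3 | h3
        · rw [p2]
          exact key u w v h3 h2 huw hvw.symm huv
        · rw [p2, p4]
          exact key w u v h3 h1 huw.symm huv hvw.symm
    · rcases le_total (κ u) (κ w) with h2 | h2
      · rw [p1]
        exact key v u w h1 h2 huv.symm huw hvw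
      · rcases le_total (κ v) (κ w) with h3 | h3
        · rw [p1, p3]
          exact key v w u h3 h2 hvw huw.symm huv.symm
        · rw [p1, p3, p5]
          exact key w v u h3 h1 hvw.symm huv.symm huw.symm
  · intro u v huv
    by_cases h1 : κ u = κ v
    · rw [gadj u v h1 huv, h1, dist_add_right]
    · constructor
      · intro hadj
        exact absurd (hκ u v hadj) h1
      · rintro ⟨q, hq⟩
        exact absurd hq (hdist u v h1 q)

end Pool.Agent.Lib.MP_a24e3f_co.M4
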