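import Pool.Agent.Lib.MP_a24e3f_co.M4.Core
import Pool.Agent.Lib.MP_a24e3f_co.M4.Infinite
import Pool.Agent.Lib.MP_a24e3f_co.M4.Union

/-!
# Graphs of maximum degree four
-/

set_option autoImplicit false

namespace Pool.Agent.Lib.MP_a24e3f_co.M4

variable {V : Type}

/-- a rational representation in the coordinates `(x, y √D)` -/
structure PtRep (G : SimpleGraph V) (D : ℚ) (f : V → Pt) : Prop where
  inj : Function.Injective f
  gp : ∀ u v w, u ≠ v → v ≠ w → u ≠ w → cr (f u) (f v) (f w) ≠ 0
  adj : ∀ u v, u ≠ v → (G.Adj u v ↔ IsSquare (nm D (f v - f u)))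

theorem PtRep.rep {G : SimpleGraph V} {D : ℚ} (hD : 0 < D) {f : V → Pt} (h : PtRep G D f) :
    IsRationalRep G (fun u => place D (f u)) := by
  refine ⟨(place_injective hD).comp h.inj, ?_, ?_⟩
  · intro u v w huv hvw huw
    rw [collinear_place_iff hD (fun hh => huv (h.inj hh))]
    exact h.gp u v w huv hvw huw
  · intro u v huv
    rw [rat_dist_iff hD, nm_sub_comm]
    exact h.adj u v huv

/-- extension of a representation of a finite part -/
theorem extend_rep {G : SimpleGraph V} {D : ℚ} (hD : 0 < D) {W : Set V} (hW : W.Finite)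
    {f₀ : W → Pt} (h₀ : PtRep (G.induce W) D f₀) (e : V → ℕ) (he : Function.Injective e)
    (hdeg : ∀ v, v ∉ W → {u | G.Adj u v ∧ (u ∈ W ∨ e u < e v)}.encard ≤ 3) :
    ∃ f : V → Pt, PtRep G D f ∧ ∀ w : W, f w = f₀ w := by
  classical
  let g0 : V → Pt := fun u => if h : u ∈ W then f₀ ⟨u, h⟩ else 0
  have hg0 : ∀ u (h : u ∈ W), g0 u = f₀ ⟨u, h⟩ := fun u h => by simp only [g0, dif_pos h]
  have hPl : ∀ u, u ∈ Pl e W 0 → u ∈ W := by
    rintro u (h | h)
    · exact h
    · exact absurd h (Nat.not_lt_zero _)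
  have good0 : Good G e W D g0 0 g0 := by
    refine ⟨fun _ _ => rfl, ?_, ?_, ?_⟩
    · intro u hu v hv h
      rw [hg0 u (hPl u hu), hg0 v (hPl v hv)] at h
      exact congrArg Subtype.val (h₀.inj h)
    · intro u hu v hv w hw huv hvw huw
      rw [hg0 u (hPl u hu), hg0 v (hPl v hv), hg0 w (hPl w hw)]
      exact h₀.gp _ _ _ (fun h => huv (congrArg Subtype.val h))
        (fun h => hvw (congrArg Subtype.val h)) (fun h => huw (congrArg Subtype.val h))
    · intro u hu v hv huv
      rw [hg0 u (hPl u hu), hg0 v (hPl v hv)]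
      exact h₀.adj ⟨u, hPl u hu⟩ ⟨v, hPl v hv⟩ (fun h => huv (congrArg Subtype.val h))
  obtain ⟨f, hf1, hf2, hf3, hf4⟩ := build G e W g0 hD he hW hdeg good0
  refine ⟨f, ⟨hf2, hf3, hf4⟩, ?_⟩
  rintro ⟨w, hw⟩
  rw [hf1 w hw, hg0 w hw]

/-- graphs with an order in which every vertex has at most three earlier neighbours -/
theorem three_degenerate (G : SimpleGraph V) (e : V → ℕ) (he : Function.Injective e)
    (hdeg : ∀ v, {u | G.Adj u v ∧ e u < e v}.encard ≤ 3) : ∃ f : V → Pt, PtRep G 1 f := by
  have h0 : PtRep (G.induce (∅ : Set V)) 1 (fun _ => (0 : Pt)) :=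
    ⟨fun u => (u.2 : False).elim, fun u => (u.2 : False).elim, fun u => (u.2 : False).elim⟩
  obtain ⟨f, hf, -⟩ := extend_rep one_pos Set.finite_empty h0 e he (by
    intro v _
    refine le_trans (Set.encard_le_encard ?_) (hdeg v)
    rintro u ⟨h1, h2 | h2⟩
    · exact (h2 : False).elim
    · exact ⟨h1, h2⟩)
  exact ⟨f, hf⟩

theorem card_le_three {G : SimpleGraph V} {v w : V} {s : Set V}
    (h4 : (G.neighborSet v).encard ≤ 4) (hvw : G.Adj v w) (hs : ∀ u ∈ s, G.Adj v u ∧ u ≠ w) :
    s.encard ≤ 3 := by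
  have h1 : s ⊆ G.neighborSet v \ {w} := fun u hu => ⟨(hs u hu).1, (hs u hu).2⟩
  have h2 := Set.encard_sdiff_singleton_add_one (s := G.neighborSet v) (a := w) hvw
  rw [← h2] at h4
  have h3 : (G.neighborSet v \ {w}).encard + 1 ≤ 3 + 1 := h4
  exact (Set.encard_le_encard h1).trans ((ENat.add_le_add_iff_right ENat.one_ne_top).1 h3)

/-- finite connected graphs of maximum degree at most four -/
theorem finite_conn [Finite V] (G : SimpleGraph V)
    (hc : ∀ u v : V, Relation.ReflTransGen G.Adj u v)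
    (h4 : ∀ v, (G.neighborSet v).encard ≤ 4) : ∃ (D : ℚ) (f : V → Pt), 0 < D ∧ PtRep G D f := by
  classical
  by_cases h : ∃ r, (G.neighborSet r).encard ≤ 3
  · obtain ⟨r, hr⟩ := h
    have hR : ∀ v ∈ (Set.univ : Set V), Rch G Set.univ r v := by
      intro v _
      exact Relation.ReflTransGen.mono (fun a b hab => ⟨hab, Set.mem_univ _, Set.mem_univ _⟩) _ _
        (hc r v)
    obtain ⟨e, he, hord⟩ := order_finite Set.finite_univ (Set.mem_univ r) hR
    obtain ⟨f, hf⟩ := three_degenerate G e he (by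
      intro v
      by_cases hv : v = r
      · subst hv
        exact (Set.encard_le_encard fun u hu => hu.1.symm).trans hr
      · obtain ⟨w, -, hvw, hlt⟩ := hord v (Set.mem_univ v) hv
        refine card_le_three (h4 v) hvw ?_
        rintro u ⟨h1, h2⟩
        refine ⟨h1.symm, ?_⟩
        rintro rfl
        omega)
    exact ⟨1, f, one_pos, hf⟩
  · push Not at h
    have h4' : ∀ v, (G.neighborSet v).encard = 4 := by
      intro v
      refine le_antisymm (h4 v) ?_
      have := Order.add_one_le_of_lt (h v)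
      exact this
    rcases isEmpty_or_nonempty V with hV | ⟨⟨v₀⟩⟩
    · exact ⟨1, fun _ => 0, one_pos, ⟨fun u => (hV.false u).elim, fun u => (hV.false u).elim,
        fun u => (hV.false u).elim⟩⟩
    have hedge : ∃ x d, G.Adj x d := by
      have h1 : (G.neighborSet v₀).Nonempty := by
        rw [← Set.encard_ne_zero, h4' v₀]
        decide
      obtain ⟨d, hd⟩ := h1
      exact ⟨v₀, d, hd⟩
    obtain ⟨x, d, hxd, hT⟩ := exists_pair hc hedge
    have hthree : ∀ v w, G.Adj v w → (G.neighborSet v \ {w}).encard = 3 := by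
      intro v w hvw
      have h2 := Set.encard_sdiff_singleton_add_one (s := G.neighborSet v) (a := w) hvw
      rw [h4' v] at h2
      have h3 : (G.neighborSet v \ {w}).encard + 1 = 3 + 1 := h2
      exact le_antisymm ((ENat.add_le_add_iff_right ENat.one_ne_top).1 h3.le)
        ((ENat.add_le_add_iff_right ENat.one_ne_top).1 h3.ge)
    obtain ⟨p, q, r, hpq, hpr, hqr, hs⟩ := Set.encard_eq_three.1 (hthree x d hxd)
    obtain ⟨a, b, c, hab, hac, hbc, hs', hcc⟩ : ∃ a b c : V, a ≠ b ∧ a ≠ c ∧ b ≠ c ∧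
        G.neighborSet x \ {d} = {a, b, c} ∧ (G.Adj c a ↔ G.Adj c b) := by
      by_cases h1 : G.Adj p q ↔ G.Adj p r
      · refine ⟨q, r, p, hqr, hpq.symm, hpr.symm, ?_, h1⟩
        rw [hs]
        ext z
        simp only [Set.mem_insert_iff, Set.mem_singleton_iff]
        tauto
      · by_cases h2 : G.Adj q p ↔ G.Adj q r
        · refine ⟨p, r, q, hpr, hpq, hqr.symm, ?_, h2⟩
          rw [hs]
          ext z
          simp only [Set.mem_insert_iff, Set.mem_singleton_iff]
          tauto
        · refine ⟨p, q, r, hpq, hpr, hqr, hs, ?_⟩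
          rw [G.adj_comm q p] at h2
          rw [G.adj_comm r p, G.adj_comm r q]
          tauto
    have hmem : ∀ u, (G.Adj x u ∧ u ≠ d) ↔ u = a ∨ u = b ∨ u = c := by
      intro u
      have : u ∈ G.neighborSet x \ {d} ↔ u ∈ ({a, b, c} : Set V) := by rw [hs']
      simpa using this
    have had : a ≠ d := ((hmem a).2 (Or.inl rfl)).2
    have hbd : b ≠ d := ((hmem b).2 (Or.inr (Or.inl rfl))).2
    have hcd : c ≠ d := ((hmem c).2 (Or.inr (Or.inr rfl))).2
    have hN : ∀ u, G.Adj x u ↔ u = a ∨ u = b ∨ u = c ∨ u = d := by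
      intro u
      constructor
      · intro hu
        by_cases hud : u = d
        · exact Or.inr (Or.inr (Or.inr hud))
        · rcases (hmem u).1 ⟨hu, hud⟩ with h1 | h1 | h1
          · exact Or.inl h1
          · exact Or.inr (Or.inl h1)
          · exact Or.inr (Or.inr (Or.inl h1))
      · rintro (h1 | h1 | h1 | h1)
        · exact ((hmem u).2 (Or.inl h1)).1
        · exact ((hmem u).2 (Or.inr (Or.inl h1))).1
        · exact ((hmem u).2 (Or.inr (Or.inr h1))).1
        · rw [h1]; exact hxd
    have hd : {u | G.Adj d u ∧ u ≠ x}.ncard = 3 := by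
      have h1 : {u | G.Adj d u ∧ u ≠ x} = G.neighborSet d \ {x} := rfl
      rw [h1, Set.ncard_def, hthree d x hxd.symm]
      rfl
    have hdT : d ∈ Tx G x d := ⟨hxd.ne', Or.inl rfl⟩
    obtain ⟨e, he, hord⟩ := order_finite (Set.toFinite (Tx G x d)) hdT hT
    obtain ⟨D, f, hD, f1, f2, f3⟩ := core4 G e he hN had hbd hcd hab hac hbc hcc hd (by
      intro v hvx hvd hva hvb hvc
      have hvT : v ∈ Tx G x d := by
        refine ⟨hvx, Or.inr ?_⟩
        rw [hN]
        rintro (h1 | h1 | h1 | h1)
        · exact hva h1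
        · exact hvb h1
        · exact hvc h1
        · exact hvd h1
      obtain ⟨w, hwT, hvw, hlt⟩ := hord v hvT hvd
      refine card_le_three (h4 v) hvw ?_
      rintro u ⟨h1, h2⟩
      refine ⟨h1.symm, ?_⟩
      rintro rfl
      rcases h2 with h2 | ⟨-, -, h2⟩
      · rcases hwT.2 with h3 | h3
        · rcases h2 with h2 | h2 | h2
          · exact had (h2 ▸ h3)
          · exact hbd (h2 ▸ h3)
          · exact hcd (h2 ▸ h3)
        · refine h3 ((hN u).2 ?_)
          rcases h2 with h2 | h2 | h2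
          · exact Or.inl h2
          · exact Or.inr (Or.inl h2)
          · exact Or.inr (Or.inr (Or.inl h2))
      · omega)
    exact ⟨D, f, hD, ⟨f1, f2, f3⟩⟩

/-- infinite connected graphs of maximum degree at most four -/
theorem infinite_conn [Infinite V] [Countable V] (G : SimpleGraph V)
    (hc : ∀ u v : V, Relation.ReflTransGen G.Adj u v)
    (h4 : ∀ v, (G.neighborSet v).encard ≤ 4) : ∃ f : V → Pt, PtRep G 1 f := by
  obtain ⟨i, hi⟩ := exists_injective_nat V
  obtain ⟨e, he, hord⟩ := order_infinite (G := G)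
    (fun v => Set.finite_of_encard_le_coe (k := 4) (h4 v)) hc i hi
  refine three_degenerate G e he ?_
  intro v
  obtain ⟨w, hvw, hlt⟩ := hord v
  refine card_le_three (h4 v) hvw ?_
  rintro u ⟨h1, h2⟩
  refine ⟨h1.symm, ?_⟩
  rintro rfl
  omega

theorem component_conn (G : SimpleGraph V) (c : G.ConnectedComponent) :
    ∀ u v : c.supp, Relation.ReflTransGen (G.induce c.supp).Adj u v := by
  rintro ⟨u, hu⟩ ⟨v, hv⟩
  have h1 : G.connectedComponentMk u = G.connectedComponentMk v :=
    ((SimpleGraph.ConnectedComponent.mem_supp_iff c u).1 hu).trans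
      ((SimpleGraph.ConnectedComponent.mem_supp_iff c v).1 hv).symm
  have h2 : Relation.ReflTransGen G.Adj u v :=
    (SimpleGraph.reachable_iff_reflTransGen u v).1 (SimpleGraph.ConnectedComponent.exact h1)
  clear h1
  induction h2 with
  | refl => exact Relation.ReflTransGen.refl
  | @tail b x hub hbc ih =>
    have hb : b ∈ c.supp := by
      have h3 : G.connectedComponentMk b = G.connectedComponentMk x :=
        SimpleGraph.ConnectedComponent.connectedComponentMk_eq_of_adj hbc
      rw [SimpleGraph.ConnectedComponent.mem_supp_iff] at hv ⊢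
      rw [h3]
      exact hv
    exact Relation.ReflTransGen.tail (ih hb) (by simpa using hbc)

/-- a component of maximum degree at most four -/
theorem component_four [Countable V] (G : SimpleGraph V) (c : G.ConnectedComponent)
    (h4 : ∀ v ∈ c.supp, (G.neighborSet v).encard ≤ 4) :
    ∃ f : c.supp → Plane, IsRationalRep (G.induce c.supp) f := by
  have hc := component_conn G c
  have h4' : ∀ v : c.supp, ((G.induce c.supp).neighborSet v).encard ≤ 4 := by
    intro v
    have h1 : (Subtype.val '' ((G.induce c.supp).neighborSet v)).encard =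
      ((G.induce c.supp).neighborSet v).encard := Subtype.val_injective.encard_image _
    rw [← h1]
    refine le_trans (Set.encard_le_encard ?_) (h4 v v.2)
    rintro _ ⟨w, hw, rfl⟩
    simpa using hw
  rcases finite_or_infinite c.supp with hfin | hinf
  · obtain ⟨D, f, hD, hf⟩ := finite_conn (G.induce c.supp) hc h4'
    exact ⟨_, hf.rep hD⟩
  · obtain ⟨f, hf⟩ := infinite_conn (G.induce c.supp) hc h4'
    exact ⟨_, hf.rep one_pos⟩

/-- a finite connected core of maximum degree at most four, and vertices with at most three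
earlier neighbours -/
theorem core_form (G : SimpleGraph V) (e : V → ℕ) (he : Function.Injective e) (W : Set V)
    (hW : W.Finite) (hc : ∀ u v : W, Relation.ReflTransGen (G.induce W).Adj u v)
    (h4 : ∀ v ∈ W, {u | G.Adj u v ∧ u ∈ W}.encard ≤ 4)
    (hdeg : ∀ v, v ∉ W → {u | G.Adj u v ∧ (u ∈ W ∨ e u < e v)}.encard ≤ 3) :
    ∃ f : V → Plane, IsRationalRep G f := by
  have := hW.to_subtype
  obtain ⟨D, f₀, hD, hf₀⟩ := finite_conn (G.induce W) hc (by
      intro v
      have h1 : (Subtype.val '' ((G.induce W).neighborSet v)).encard =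
        ((G.induce W).neighborSet v).encard := Subtype.val_injective.encard_image _
      rw [← h1]
      refine le_trans (Set.encard_le_encard ?_) (h4 v v.2)
      rintro _ ⟨w, hw, rfl⟩
      have hw' : G.Adj v w := by simpa using hw
      exact ⟨hw'.symm, w.2⟩)
  obtain ⟨f, hf, -⟩ := extend_rep hD hW hf₀ e he hdeg
  exact ⟨_, hf.rep hD⟩

theorem component_core (G : SimpleGraph V) (c : G.ConnectedComponent) (e : V → ℕ) (W : Set V)
    (he : Function.Injective e) (hWc : W ⊆ c.supp) (hW : W.Finite)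
    (hc : (G.induce W).Preconnected) (h4 : ∀ v ∈ W, {u | G.Adj u v ∧ u ∈ W}.encard ≤ 4)
    (hdeg : ∀ v ∈ c.supp, v ∉ W → {u | G.Adj u v ∧ (u ∈ W ∨ e u < e v)}.encard ≤ 3) :
    ∃ f : c.supp → Plane, IsRationalRep (G.induce c.supp) f := by
  refine core_form (G.induce c.supp) (fun v => e v) (fun u v h => Subtype.ext (he h))
    (Subtype.val ⁻¹' W) (hW.preimage Subtype.val_injective.injOn) ?_ ?_ ?_
  · have h1 : ∀ u v : W, Relation.ReflTransGen (G.induce W).Adj u v := fun u v =>
      (SimpleGraph.reachable_iff_reflTransGen u v).1 (hc u v)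
    rintro ⟨u, hu⟩ ⟨v, hv⟩
    exact Relation.ReflTransGen.lift
      (fun w : W => (⟨⟨w.1, hWc w.2⟩, w.2⟩ : ↥(Subtype.val ⁻¹' W : Set c.supp)))
      (fun a b hab => by simpa using hab) _ _ (h1 ⟨u.1, hu⟩ ⟨v.1, hv⟩)
  · intro v hv
    have h1 : (Subtype.val '' {u : c.supp | (G.induce c.supp).Adj u v ∧ u ∈ Subtype.val ⁻¹' W}).encard
      = {u : c.supp | (G.induce c.supp).Adj u v ∧ u ∈ Subtype.val ⁻¹' W}.encard :=
      Subtype.val_injective.encard_image _
    rw [← h1]
    refine le_trans (Set.encard_le_encard ?_) (h4 v hv)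
    rintro _ ⟨w, ⟨hw1, hw2⟩, rfl⟩
    exact ⟨by simpa using hw1, hw2⟩
  · intro v hv
    have h1 : (Subtype.val '' {u : c.supp | (G.induce c.supp).Adj u v ∧
        (u ∈ Subtype.val ⁻¹' W ∨ e u < e v)}).encard
      = {u : c.supp | (G.induce c.supp).Adj u v ∧
        (u ∈ Subtype.val ⁻¹' W ∨ e u < e v)}.encard :=
      Subtype.val_injective.encard_image _
    rw [← h1]
    refine le_trans (Set.encard_le_encard ?_) (hdeg v v.2 hv)
    rintro _ ⟨w, ⟨hw1, hw2⟩, rfl⟩
    exact ⟨by simpa using hw1, hw2⟩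

/-- disjoint unions -/
theorem components [Countable V] (G : SimpleGraph V)
    (h : ∀ c : G.ConnectedComponent, ∃ f : c.supp → Plane, IsRationalRep (G.induce c.supp) f) :
    ∃ f : V → Plane, IsRationalRep G f := by
  classical
  have : Countable G.ConnectedComponent :=
    Function.Surjective.countable (f := G.connectedComponentMk) fun c => c.exists_rep
  obtain ⟨i, hi⟩ := exists_injective_nat G.ConnectedComponent
  refine union G (fun v => i (G.connectedComponentMk v)) ?_ ?_
  · intro u v huv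
    exact congrArg i (SimpleGraph.ConnectedComponent.connectedComponentMk_eq_of_adj huv)
  · intro n
    by_cases hn : ∃ c, i c = n
    · obtain ⟨c, rfl⟩ := hn
      have hset : {v | i (G.connectedComponentMk v) = i c} = c.supp := by
        ext v
        rw [SimpleGraph.ConnectedComponent.mem_supp_iff]
        exact ⟨fun hh => hi hh, fun hh => congrArg i hh⟩
      rw [hset]
      exact h c
    · have hE : ∀ v : {v | i (G.connectedComponentMk v) = n}, False :=
        fun v => hn ⟨_, v.2⟩
      exact ⟨fun _ => 0, ⟨fun u => (hE u).elim, fun u => (hE u).elim, fun u => (hE u).elim⟩⟩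

/-- the final theorem -/
theorem max_degree_four [Countable V] (G : SimpleGraph V)
    (h : ∀ c : G.ConnectedComponent,
      (∀ v ∈ c.supp, (G.neighborSet v).encard ≤ 4) ∨
      (∃ (e : V → ℕ) (W : Set V), Function.Injective e ∧ W ⊆ c.supp ∧ W.Finite ∧
        (G.induce W).Preconnected ∧ (∀ v ∈ W, {u | G.Adj u v ∧ u ∈ W}.encard ≤ 4) ∧
        ∀ v ∈ c.supp, v ∉ W → {u | G.Adj u v ∧ (u ∈ W ∨ e u < e v)}.encard ≤ 3) ∨
      ∃ f : c.supp → Plane, IsRationalRep (G.induce c.supp) f) :
    ∃ f : V → Plane, IsRationalRep G f := by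
  refine components G fun c => ?_
  rcases h c with h1 | ⟨e, W, he, hWc, hW, hc, h4, hdeg⟩ | h1
  · exact component_four G c h1
  · exact component_core G c e W he hWc hW hc h4 hdeg
  · exact h1

end Pool.Agent.Lib.MP_a24e3f_co.M4
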