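import Pool.Agent.Lib.MP_a24e3f_co.M4.Ext4
import Pool.Agent.Lib.MP_a24e3f_co.Final

/-!
# A finite graph with a vertex of degree four placed last
-/

set_option autoImplicit false

namespace Pool.Agent.Lib.MP_a24e3f_co.M4

theorem exists_core (p q : Prop) : ∃ (D α β : ℚ), 0 < D ∧ 0 < α ∧ 0 < β ∧
    (IsSquare (4 * D * β ^ 2) ↔ p) ∧ (IsSquare (α ^ 2 + D * β ^ 2) ↔ q) := by
  have hneg : ∀ (n : ℕ) (r : ℚ), r = n → ¬ IsSquare n → ¬ IsSquare r := by
    intro n r h hn
    rw [h, Rat.isSquare_natCast_iff]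
    exact hn
  have n2 : ¬ IsSquare (2 : ℕ) := by
    rintro ⟨r, hr⟩
    have : r ≤ 3 := by nlinarith
    interval_cases r <;> omega
  have n3 : ¬ IsSquare (3 : ℕ) := by
    rintro ⟨r, hr⟩
    have : r ≤ 3 := by nlinarith
    interval_cases r <;> omega
  have n8 : ¬ IsSquare (8 : ℕ) := by
    rintro ⟨r, hr⟩
    have : r ≤ 3 := by nlinarith
    interval_cases r <;> omega
  have n12 : ¬ IsSquare (12 : ℕ) := by
    rintro ⟨r, hr⟩
    have : r ≤ 4 := by nlinarith
    interval_cases r <;> omega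
  by_cases hp : p
  · by_cases hq : q
    · refine ⟨1, 3, 4, by norm_num, by norm_num, by norm_num, ?_, ?_⟩
      · exact iff_of_true ⟨8, by norm_num⟩ hp
      · exact iff_of_true ⟨5, by norm_num⟩ hq
    · refine ⟨1, 1, 1, by norm_num, by norm_num, by norm_num, ?_, ?_⟩
      · exact iff_of_true ⟨2, by norm_num⟩ hp
      · exact iff_of_false (hneg 2 _ (by norm_num) n2) hq
  · by_cases hq : q
    · refine ⟨3, 1, 1, by norm_num, by norm_num, by norm_num, ?_, ?_⟩
      · exact iff_of_false (hneg 12 _ (by norm_num) n12) hp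
      · exact iff_of_true ⟨2, by norm_num⟩ hq
    · refine ⟨2, 1, 1, by norm_num, by norm_num, by norm_num, ?_, ?_⟩
      · exact iff_of_false (hneg 8 _ (by norm_num) n8) hp
      · exact iff_of_false (hneg 3 _ (by norm_num) n3) hq

section Stage1

variable {V : Type} (G : SimpleGraph V) (x d a b c : V) (D α β : ℚ)

/-- the base points -/
noncomputable def bp (v : V) : Pt :=
  open Classical in if v = a then (α, β) else if v = b then (α, -β) else (0, 0)

/-- the base map on `Option` (the dummy point is `none`) -/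
noncomputable def bq : Option {v : V // v ≠ x ∧ v ≠ d} → Pt
  | none => (-1, 0)
  | some v => bp a b α β v.1

/-- adjacency on `Option` -/
def gAdj : Option {v : V // v ≠ x ∧ v ≠ d} → Option {v : V // v ≠ x ∧ v ≠ d} → Prop
  | none, none => False
  | none, some v => (v.1 = a ∨ v.1 = b ∨ v.1 = c) ∧ IsSquare (nm D (bp a b α β v.1 - (-1, 0)))
  | some v, none => (v.1 = a ∨ v.1 = b ∨ v.1 = c) ∧ IsSquare (nm D (bp a b α β v.1 - (-1, 0)))
  | some u, some v => G.Adj u.1 v.1

/-- the graph of the first stage -/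
def g1 : SimpleGraph (Option {v : V // v ≠ x ∧ v ≠ d}) where
  Adj := gAdj G x d a b c D α β
  symm := ⟨by
    intro u v h
    cases u with
    | none =>
      cases v with
      | none => exact h
      | some v => exact h
    | some u =>
      cases v with
      | none => exact h
      | some v => exact SimpleGraph.adj_symm G h⟩
  loopless := ⟨by
    intro u h
    cases u with
    | none => exact h
    | some u => exact G.loopless.irrefl _ h⟩

/-- order of the first stage -/
def e1 (e : V → ℕ) : Option {v : V // v ≠ x ∧ v ≠ d} → ℕ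
  | none => 0
  | some v => e v.1 + 1

lemma e1_inj {e : V → ℕ} (he : Function.Injective e) : Function.Injective (e1 x d e) := by
  intro u v h
  cases u with
  | none =>
    cases v with
    | none => rfl
    | some v => exact absurd h (by simp [e1])
  | some u =>
    cases v with
    | none => exact absurd h (by simp [e1])
    | some v =>
      have : e u.1 = e v.1 := by simpa [e1] using h
      rw [Option.some.injEq]
      exact Subtype.ext (he this)

end Stage1

theorem stage1 {V : Type} (G : SimpleGraph V) (e : V → ℕ) (he : Function.Injective e)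
    {x d a b c : V} (hax : a ≠ x) (hbx : b ≠ x) (hcx : c ≠ x) (had : a ≠ d) (hbd : b ≠ d)
    (hcd : c ≠ d) (hab : a ≠ b) (hac : a ≠ c) (hbc : b ≠ c) (hc : G.Adj c a ↔ G.Adj c b)
    (hdeg : ∀ v, v ≠ x → v ≠ d → v ≠ a → v ≠ b → v ≠ c →
      {u | G.Adj u v ∧ ((u = a ∨ u = b ∨ u = c) ∨ (u ≠ x ∧ u ≠ d ∧ e u < e v))}.encard ≤ 3) :
    ∃ (D α β : ℚ) (f : Option {v : V // v ≠ x ∧ v ≠ d} → Pt), 0 < D ∧ 0 < α ∧ 0 < β ∧
      Function.Injective f ∧
      (∀ u v w, u ≠ v → v ≠ w → u ≠ w → cr (f u) (f v) (f w) ≠ 0) ∧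
      f none = (-1, 0) ∧ f (some ⟨a, hax, had⟩) = (α, β) ∧ f (some ⟨b, hbx, hbd⟩) = (α, -β) ∧
      f (some ⟨c, hcx, hcd⟩) = (0, 0) ∧
      ∀ u v : {v : V // v ≠ x ∧ v ≠ d}, u ≠ v →
        (G.Adj u.1 v.1 ↔ IsSquare (nm D (f (some v) - f (some u)))) := by
  classical
  obtain ⟨D, α, β, hD, hα, hβ, h1, h2⟩ := exists_core (G.Adj a b) (G.Adj c a)
  have hαβ := mul_pos hα hβ
  set A : Option {v : V // v ≠ x ∧ v ≠ d} := some ⟨a, hax, had⟩ with hA
  set B : Option {v : V // v ≠ x ∧ v ≠ d} := some ⟨b, hbx, hbd⟩ with hB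
  set C : Option {v : V // v ≠ x ∧ v ≠ d} := some ⟨c, hcx, hcd⟩ with hC
  have vA : bq x d a b α β A = (α, β) := by simp [hA, bq, bp]
  have vB : bq x d a b α β B = (α, -β) := by simp [hB, bq, bp, hab.symm]
  have vC : bq x d a b α β C = (0, 0) := by simp [hC, bq, bp, hac.symm, hbc.symm]
  have vN : bq x d a b α β none = (-1, 0) := rfl
  let W : Set (Option {v : V // v ≠ x ∧ v ≠ d}) := {none, A, B, C}
  have hWfin : W.Finite := Set.toFinite _
  have hPl : ∀ u, u ∈ Pl (e1 x d e) W 0 → u = none ∨ u = A ∨ u = B ∨ u = C := by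
    rintro u (h | h)
    · exact h
    · exact absurd h (Nat.not_lt_zero _)
  have n1 : nm D ((α, -β) - (α, β)) = 4 * D * β ^ 2 := by unfold nm; simp; ring
  have n1' : nm D ((α, β) - (α, -β)) = 4 * D * β ^ 2 := by unfold nm; simp; ring
  have n2 : nm D ((α, β) - (0, 0)) = α ^ 2 + D * β ^ 2 := by unfold nm; simp
  have n2' : nm D ((0, 0) - (α, β)) = α ^ 2 + D * β ^ 2 := by unfold nm; simp
  have n3 : nm D ((α, -β) - (0, 0)) = α ^ 2 + D * β ^ 2 := by unfold nm; simp
  have n3' : nm D ((0, 0) - (α, -β)) = α ^ 2 + D * β ^ 2 := by unfold nm; simp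
  have h0 : Good (g1 G x d a b c D α β) (e1 x d e) W D (bq x d a b α β) 0 (bq x d a b α β) := by
    refine ⟨fun _ _ => rfl, ?_, ?_, ?_⟩
    · intro u hu v hv h
      rcases hPl u hu with rfl | rfl | rfl | rfl <;> rcases hPl v hv with rfl | rfl | rfl | rfl <;>
        first
        | rfl
        | (exfalso
           simp only [vA, vB, vC, vN, Prod.mk.injEq] at h
           obtain ⟨g1, g2⟩ := h
           linarith)
    · intro u hu v hv w hw huv hvw huw
      rcases hPl u hu with rfl | rfl | rfl | rfl <;> rcases hPl v hv with rfl | rfl | rfl | rfl <;>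
        rcases hPl w hw with rfl | rfl | rfl | rfl <;>
        first
        | exact absurd rfl huv
        | exact absurd rfl hvw
        | exact absurd rfl huw
        | (intro h
           simp only [vA, vB, vC, vN, cr, cA, Prod.mk_sub_mk] at h
           nlinarith)
    · intro u hu v hv huv
      rcases hPl u hu with rfl | rfl | rfl | rfl <;> rcases hPl v hv with rfl | rfl | rfl | rfl
      · exact absurd rfl huv
      · rw [vA, vN]
        show (a = a ∨ a = b ∨ a = c) ∧ IsSquare (nm D (bp a b α β a - (-1, 0))) ↔ _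
        rw [show bp a b α β a = (α, β) from vA]
        simp
      · rw [vB, vN]
        show (b = a ∨ b = b ∨ b = c) ∧ IsSquare (nm D (bp a b α β b - (-1, 0))) ↔ _
        rw [show bp a b α β b = (α, -β) from vB]
        simp
      · rw [vC, vN]
        show (c = a ∨ c = b ∨ c = c) ∧ IsSquare (nm D (bp a b α β c - (-1, 0))) ↔ _
        rw [show bp a b α β c = (0, 0) from vC]
        simp
      · rw [vA, vN]
        show (a = a ∨ a = b ∨ a = c) ∧ IsSquare (nm D (bp a b α β a - (-1, 0))) ↔ _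
        rw [show bp a b α β a = (α, β) from vA, nm_sub_comm]
        simp
      · exact absurd rfl huv
      · rw [vA, vB, n1]
        exact h1.symm
      · rw [vA, vC, n2', h2]
        exact G.adj_comm _ _
      · rw [vB, vN]
        show (b = a ∨ b = b ∨ b = c) ∧ IsSquare (nm D (bp a b α β b - (-1, 0))) ↔ _
        rw [show bp a b α β b = (α, -β) from vB, nm_sub_comm]
        simp
      · rw [vA, vB, n1', h1]
        exact G.adj_comm _ _
      · exact absurd rfl huv
      · rw [vB, vC, n3', h2, hc]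
        exact G.adj_comm _ _
      · rw [vC, vN]
        show (c = a ∨ c = b ∨ c = c) ∧ IsSquare (nm D (bp a b α β c - (-1, 0))) ↔ _
        rw [show bp a b α β c = (0, 0) from vC, nm_sub_comm]
        simp
      · rw [vA, vC, n2]
        exact h2.symm
      · rw [vB, vC, n3, h2]
        exact hc.symm
      · exact absurd rfl huv
  have hdeg1 : ∀ v, v ∉ W → {u | (g1 G x d a b c D α β).Adj u v ∧
      (u ∈ W ∨ e1 x d e u < e1 x d e v)}.encard ≤ 3 := by
    intro v hv
    have hv' : ∃ v' : {v : V // v ≠ x ∧ v ≠ d}, v = some v' ∧ v'.1 ≠ a ∧ v'.1 ≠ b ∧ v'.1 ≠ c := by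
      cases v with
      | none => exact absurd (by simp [W]) hv
      | some v' =>
        refine ⟨v', rfl, ?_, ?_, ?_⟩
        · intro h
          apply hv
          have : some v' = A := by rw [hA, Option.some.injEq]; exact Subtype.ext h
          rw [this]; simp [W]
        · intro h
          apply hv
          have : some v' = B := by rw [hB, Option.some.injEq]; exact Subtype.ext h
          rw [this]; simp [W]
        · intro h
          apply hv
          have : some v' = C := by rw [hC, Option.some.injEq]; exact Subtype.ext h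
          rw [this]; simp [W]
    obtain ⟨v', rfl, k1, k2, k3⟩ := hv'
    refine le_trans ?_ (hdeg v'.1 v'.2.1 v'.2.2 k1 k2 k3)
    refine Set.encard_le_encard_of_injOn (f := fun u : Option {v : V // v ≠ x ∧ v ≠ d} =>
      match u with
      | none => x
      | some u => u.1) ?_ ?_
    · rintro (_ | u) hu
      · exfalso
        obtain ⟨hu1, -⟩ := hu
        have hu1' : v'.1 = a ∨ v'.1 = b ∨ v'.1 = c := hu1.1
        rcases hu1' with h | h | h
        · exact k1 h
        · exact k2 h
        · exact k3 h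
      · obtain ⟨hu1, hu2⟩ := hu
        refine ⟨hu1, ?_⟩
        rcases hu2 with hu2 | hu2
        · left
          have : some u = none ∨ some u = A ∨ some u = B ∨ some u = C := hu2
          rcases this with h | h | h | h
          · exact absurd h (by simp)
          · left; rw [hA, Option.some.injEq] at h; rw [h]
          · right; left; rw [hB, Option.some.injEq] at h; rw [h]
          · right; right; rw [hC, Option.some.injEq] at h; rw [h]
        · right
          refine ⟨u.2.1, u.2.2, ?_⟩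
          have : e u.1 + 1 < e v'.1 + 1 := hu2
          exact Nat.lt_of_succ_lt_succ this
    · rintro (_ | u) hu (_ | w) hw h
      · rfl
      · exact absurd h.symm w.2.1
      · exact absurd h u.2.1
      · rw [Option.some.injEq]
        exact Subtype.ext h
  obtain ⟨f, f1, f2, f3, f4⟩ := build (g1 G x d a b c D α β) (e1 x d e) W (bq x d a b α β) hD
    (e1_inj x d he) hWfin hdeg1 h0
  refine ⟨D, α, β, f, hD, hα, hβ, f2, f3, ?_, ?_, ?_, ?_, ?_⟩
  · rw [f1 none (by simp [W]), vN]
  · rw [f1 A (by simp [W]), vA]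
  · rw [f1 B (by simp [W]), vB]
  · rw [f1 C (by simp [W]), vC]
  · intro u v huv
    exact f4 (some u) (some v) (fun h => huv (Option.some.inj h))

theorem core4 {V : Type} [Finite V] (G : SimpleGraph V) (e : V → ℕ) (he : Function.Injective e)
    {x d a b c : V} (hN : ∀ u, G.Adj x u ↔ u = a ∨ u = b ∨ u = c ∨ u = d)
    (had : a ≠ d) (hbd : b ≠ d)
    (hcd : c ≠ d) (hab : a ≠ b) (hac : a ≠ c) (hbc : b ≠ c) (hc : G.Adj c a ↔ G.Adj c b)
    (hd : {u | G.Adj d u ∧ u ≠ x}.ncard = 3)
    (hdeg : ∀ v, v ≠ x → v ≠ d → v ≠ a → v ≠ b → v ≠ c →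
      {u | G.Adj u v ∧ ((u = a ∨ u = b ∨ u = c) ∨ (u ≠ x ∧ u ≠ d ∧ e u < e v))}.encard ≤ 3) :
    ∃ (D : ℚ) (f : V → Pt), 0 < D ∧ Function.Injective f ∧
      (∀ u v w, u ≠ v → v ≠ w → u ≠ w → cr (f u) (f v) (f w) ≠ 0) ∧
      ∀ u v, u ≠ v → (G.Adj u v ↔ IsSquare (nm D (f v - f u))) := by
  classical
  have := Fintype.ofFinite V
  have hax : a ≠ x := fun h => G.loopless.irrefl x ((hN x).2 (Or.inl h.symm))
  have hbx : b ≠ x := fun h => G.loopless.irrefl x ((hN x).2 (Or.inr (Or.inl h.symm)))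
  have hcx : c ≠ x := fun h => G.loopless.irrefl x ((hN x).2 (Or.inr (Or.inr (Or.inl h.symm))))
  have hdx : d ≠ x := fun h => G.loopless.irrefl x ((hN x).2 (Or.inr (Or.inr (Or.inr h.symm))))
  obtain ⟨D, α, β, f, hD, hα, hβ, f1, f2, f3, fa, fb, fc, f4⟩ :=
    stage1 G e he hax hbx hcx had hbd hcd hab hac hbc hc hdeg
  -- the map on the vertices
  obtain ⟨φ, hφ⟩ : ∃ φ : V → Pt, ∀ (u : V) (h : u ≠ x ∧ u ≠ d), φ u = f (some ⟨u, h⟩) := by
    refine ⟨fun u => if h : u ≠ x ∧ u ≠ d then f (some ⟨u, h⟩) else 0, ?_⟩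
    intro u h
    simp only [dif_pos h]
  set S : Finset Pt := Finset.univ.image f with hS
  have hSm : ∀ u, f u ∈ S := fun u => Finset.mem_image_of_mem f (Finset.mem_univ u)
  have hGP : GP S := by
    intro p hp q hq r hr h1 h2 h3
    rw [hS, Finset.mem_image] at hp hq hr
    obtain ⟨u, -, rfl⟩ := hp
    obtain ⟨v, -, rfl⟩ := hq
    obtain ⟨w, -, rfl⟩ := hr
    exact f2 u v w (fun h => h1 (by rw [h])) (fun h => h2 (by rw [h])) (fun h => h3 (by rw [h]))
  have φS : ∀ u, u ≠ x → u ≠ d → φ u ∈ S := by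
    intro u h1 h2
    rw [hφ u ⟨h1, h2⟩]
    exact hSm _
  have φn : ∀ u, u ≠ x → u ≠ d → φ u ≠ ((-1 : ℚ), (0 : ℚ)) := by
    intro u h1 h2 h
    rw [hφ u ⟨h1, h2⟩, ← f3] at h
    have := f1 h
    simp at this
  have φi : ∀ u v, u ≠ x → u ≠ d → v ≠ x → v ≠ d → φ u = φ v → u = v := by
    intro u v h1 h2 h3 h4 h
    rw [hφ u ⟨h1, h2⟩, hφ v ⟨h3, h4⟩] at h
    have := Option.some.inj (f1 h)
    exact congrArg Subtype.val this
  have φg : ∀ u v w, u ≠ x → u ≠ d → v ≠ x → v ≠ d → w ≠ x → w ≠ d → u ≠ v → v ≠ w → u ≠ w →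
      cr (φ u) (φ v) (φ w) ≠ 0 := by
    intro u v w h1 h2 h3 h4 h5 h6 k1 k2 k3
    rw [hφ u ⟨h1, h2⟩, hφ v ⟨h3, h4⟩, hφ w ⟨h5, h6⟩]
    apply f2
    · intro h; exact k1 (congrArg Subtype.val (Option.some.inj h))
    · intro h; exact k2 (congrArg Subtype.val (Option.some.inj h))
    · intro h; exact k3 (congrArg Subtype.val (Option.some.inj h))
  have φadj : ∀ u v, u ≠ x → u ≠ d → v ≠ x → v ≠ d → u ≠ v →
      (G.Adj u v ↔ IsSquare (nm D (φ v - φ u))) := by
    intro u v h1 h2 h3 h4 k
    rw [hφ u ⟨h1, h2⟩, hφ v ⟨h3, h4⟩]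
    exact f4 ⟨u, h1, h2⟩ ⟨v, h3, h4⟩ (fun h => k (congrArg Subtype.val h))
  have φa : φ a = (α, β) := by rw [hφ a ⟨hax, had⟩]; exact fa
  have φb : φ b = (α, -β) := by rw [hφ b ⟨hbx, hbd⟩]; exact fb
  have φc : φ c = (0, 0) := by rw [hφ c ⟨hcx, hcd⟩]; exact fc
  -- the neighbours of `d`
  set Bv : Finset V := Finset.univ.filter (fun u => G.Adj d u ∧ u ≠ x) with hBv
  have hBv3 : Bv.card = 3 := by
    rw [← hd, ← Set.ncard_coe_finset]
    congr 1
    ext u
    simp [hBv]
  have hBm : ∀ u, u ∈ Bv ↔ G.Adj d u ∧ u ≠ x := by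
    intro u
    rw [hBv, Finset.mem_filter]
    simp
  have hBd : ∀ u, u ∈ Bv → u ≠ x ∧ u ≠ d := by
    intro u hu
    rw [hBm] at hu
    exact ⟨hu.2, fun h => G.loopless.irrefl d (by rw [h] at hu; exact hu.1)⟩
  have hB3 : (Bv.image φ).card = 3 := by
    rw [Finset.card_image_of_injOn, hBv3]
    intro u hu v hv h
    obtain ⟨k1, k2⟩ := hBd u hu
    obtain ⟨k3, k4⟩ := hBd v hv
    exact φi u v k1 k2 k3 k4 h
  have hBS : Bv.image φ ⊆ S := by
    intro p hp
    rw [Finset.mem_image] at hp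
    obtain ⟨u, hu, rfl⟩ := hp
    exact φS u (hBd u hu).1 (hBd u hu).2
  obtain ⟨z, t, z1, z2, z3, z4, z5, z6, z7, z8, z9⟩ := extend4 hD S hGP (α := α) (β := β) (γ := 0)
    (γ' := -1) hβ.ne' (by norm_num) (by rw [← φa]; exact φS a hax had)
    (by rw [← φb]; exact φS b hbx hbd) (by rw [← φc]; exact φS c hcx hcd)
    (by rw [← f3]; exact hSm _) (Bv.image φ) hBS hB3
  -- another vertex in the set
  have hex : ∀ u : V, ∃ v, v ≠ x ∧ v ≠ d ∧ v ≠ u := by
    intro u
    by_cases h : u = a
    · exact ⟨b, hbx, hbd, fun h' => hab (h.symm.trans h'.symm)⟩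
    · exact ⟨a, hax, had, fun h' => h h'.symm⟩
  have crzz : ∀ p q : Pt, cr p q q = 0 := by
    intro p q; unfold cr cA; ring
  have crpp : ∀ p q : Pt, cr p q p = 0 := by
    intro p q; unfold cr cA; simp
  have zne : ∀ u, u ≠ x → u ≠ d → φ u ≠ z := by
    intro u h1 h2 h
    obtain ⟨v, k1, k2, k3⟩ := hex u
    apply z1 (φ v) (φS v k1 k2) (φ u) (φS u h1 h2) (fun h' => k3 (φi v u k1 k2 h1 h2 h'))
    rw [← h]
    exact crzz _ _
  have tne : ∀ u, u ≠ x → u ≠ d → φ u ≠ (t, 0) := by
    intro u h1 h2 h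
    obtain ⟨v, k1, k2, k3⟩ := hex u
    apply z8 (φ v) (φS v k1 k2) (φ u) (φS u h1 h2) (φn v k1 k2) (φn u h1 h2)
      (fun h' => k3 (φi v u k1 k2 h1 h2 h'))
    rw [← h]
    exact crzz _ _
  have ztne : z ≠ (t, 0) := by
    intro h
    apply z9 (φ a) (φS a hax had) (φn a hax had)
    rw [← h]
    exact crzz _ _
  obtain ⟨F, Fx, Fd, Fo⟩ : ∃ F : V → Pt, F x = (t, 0) ∧ F d = z ∧
      ∀ u, u ≠ x → u ≠ d → F u = φ u := by
    refine ⟨fun u => if u = x then (t, 0) else if u = d then z else φ u, ?_, ?_, ?_⟩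
    · simp
    · simp [hdx]
    · intro u h1 h2
      simp [h1, h2]
  -- adjacency with `x`
  have adx : ∀ u, u ≠ x → (G.Adj x u ↔ IsSquare (nm D ((t, 0) - F u))) := by
    intro u hux
    rw [hN]
    by_cases hud : u = d
    · rw [hud, Fd]
      exact iff_of_true (by simp) z6
    · rw [Fo u hux hud]
      by_cases hua : u = a
      · rw [hua, φa]
        exact iff_of_true (by simp) z3
      by_cases hub : u = b
      · rw [hub, φb]
        exact iff_of_true (by simp) z4
      by_cases huc : u = c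
      · rw [huc, φc]
        exact iff_of_true (by simp) z5
      refine iff_of_false (by simp [hua, hub, huc, hud]) ?_
      apply z7 (φ u) (φS u hux hud)
      · rw [← φa]; intro h; exact hua (φi u a hux hud hax had h)
      · rw [← φb]; intro h; exact hub (φi u b hux hud hbx hbd h)
      · rw [← φc]; intro h; exact huc (φi u c hux hud hcx hcd h)
      · exact φn u hux hud
  -- adjacency with `d`
  have add : ∀ u, u ≠ x → u ≠ d → (G.Adj d u ↔ IsSquare (nm D (z - F u))) := by
    intro u hux hud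
    rw [Fo u hux hud, z2 (φ u) (φS u hux hud), Finset.mem_image]
    constructor
    · intro h
      exact ⟨u, (hBm u).2 ⟨h, hux⟩, rfl⟩
    · rintro ⟨v, hv, h⟩
      have hvd := hBd v hv
      have := φi v u hvd.1 hvd.2 hux hud h
      rw [← this]
      exact ((hBm v).1 hv).1
  have hFx : ∀ u, u ≠ x → F u ≠ (t, 0) := by
    intro u hu
    by_cases hud : u = d
    · rw [hud, Fd]; exact ztne
    · rw [Fo u hu hud]; exact tne u hu hud
  have hFd : ∀ u, u ≠ x → u ≠ d → F u ≠ z := by
    intro u hu hud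
    rw [Fo u hu hud]; exact zne u hu hud
  -- general position
  have gx : ∀ u v, u ≠ x → v ≠ x → u ≠ v → cr (F u) (F v) (t, 0) ≠ 0 := by
    intro u v hu hv huv
    by_cases hud : u = d
    · have hvd : v ≠ d := fun h => huv (hud.trans h.symm)
      rw [hud, Fd, Fo v hv hvd, ← cr_rot]
      have h9 := z9 (φ v) (φS v hv hvd) (φn v hv hvd)
      intro h
      apply h9
      unfold cr cA at h ⊢
      simp only [Prod.fst_sub, Prod.snd_sub] at h ⊢
      linarith
    · by_cases hvd : v = d
      · rw [hvd, Fd, Fo u hu hud]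
        exact z9 (φ u) (φS u hu hud) (φn u hu hud)
      · rw [Fo u hu hud, Fo v hv hvd]
        exact z8 (φ u) (φS u hu hud) (φ v) (φS v hv hvd) (φn u hu hud) (φn v hv hvd)
          (fun h => huv (φi u v hu hud hv hvd h))
  have gd : ∀ u v, u ≠ x → u ≠ d → v ≠ x → v ≠ d → u ≠ v → cr (F u) (F v) z ≠ 0 := by
    intro u v hu hud hv hvd huv
    rw [Fo u hu hud, Fo v hv hvd]
    exact z1 (φ u) (φS u hu hud) (φ v) (φS v hv hvd) (fun h => huv (φi u v hu hud hv hvd h))
  refine ⟨D, F, hD, ?_, ?_, ?_⟩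
  · intro u v h
    by_contra huv
    by_cases hux : u = x
    · have hvx : v ≠ x := fun h' => huv (hux.trans h'.symm)
      rw [hux, Fx] at h
      exact hFx v hvx h.symm
    by_cases hvx : v = x
    · rw [hvx, Fx] at h
      exact hFx u hux h
    by_cases hud : u = d
    · have hvd : v ≠ d := fun h' => huv (hud.trans h'.symm)
      rw [hud, Fd] at h
      exact hFd v hvx hvd h.symm
    by_cases hvd : v = d
    · rw [hvd, Fd] at h
      exact hFd u hux hud h
    rw [Fo u hux hud, Fo v hvx hvd] at h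
    exact huv (φi u v hux hud hvx hvd h)
  · intro u v w huv hvw huw
    by_cases hux : u = x
    · have hvx : v ≠ x := fun h' => huv (hux.trans h'.symm)
      have hwx : w ≠ x := fun h' => huw (hux.trans h'.symm)
      rw [hux, Fx, ← cr_rot]
      exact gx v w hvx hwx hvw
    by_cases hvx : v = x
    · have hwx : w ≠ x := fun h' => hvw (hvx.trans h'.symm)
      rw [hvx, Fx, ← cr_rot, ← cr_rot]
      exact gx w u hwx hux huw.symm
    by_cases hwx : w = x
    · rw [hwx, Fx]
      exact gx u v hux hvx huv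
    by_cases hud : u = d
    · have hvd : v ≠ d := fun h' => huv (hud.trans h'.symm)
      have hwd : w ≠ d := fun h' => huw (hud.trans h'.symm)
      rw [hud, Fd, ← cr_rot]
      exact gd v w hvx hvd hwx hwd hvw
    by_cases hvd : v = d
    · have hwd : w ≠ d := fun h' => hvw (hvd.trans h'.symm)
      rw [hvd, Fd, ← cr_rot, ← cr_rot]
      exact gd w u hwx hwd hux hud huw.symm
    by_cases hwd : w = d
    · rw [hwd, Fd]
      exact gd u v hux hud hvx hvd huv
    rw [Fo u hux hud, Fo v hvx hvd, Fo w hwx hwd]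
    exact φg u v w hux hud hvx hvd hwx hwd huv hvw huw
  · intro u v huv
    by_cases hux : u = x
    · have hvx : v ≠ x := fun h' => huv (hux.trans h'.symm)
      rw [hux, Fx, nm_sub_comm]
      exact adx v hvx
    by_cases hvx : v = x
    · rw [hvx, Fx, G.adj_comm]
      exact adx u hux
    by_cases hud : u = d
    · have hvd : v ≠ d := fun h' => huv (hud.trans h'.symm)
      rw [hud, Fd, nm_sub_comm]
      exact add v hvx hvd
    by_cases hvd : v = d
    · rw [hvd, Fd, G.adj_comm]
      exact add u hux hud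
    rw [Fo u hux hud, Fo v hvx hvd]
    exact φadj u v hux hud hvx hvd huv

end Pool.Agent.Lib.MP_a24e3f_co.M4
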