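import Mathlib

/-!
# Orders of the vertices of a connected graph in which every vertex has a later neighbour
-/

set_option autoImplicit false

namespace Pool.Agent.Lib.MP_a24e3f_co.M4

variable {V : Type} (G : SimpleGraph V)

/-- `v` can be reached from `u` inside `T` -/
def Rch (T : Set V) : V → V → Prop :=
  Relation.ReflTransGen (fun a b => G.Adj a b ∧ a ∈ T ∧ b ∈ T)

variable {G}

theorem Rch.symm {T : Set V} {u v : V} (h : Rch G T u v) : Rch G T v u := by
  induction h with
  | refl => exact Relation.ReflTransGen.refl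
  | tail _ hbc ih => exact Relation.ReflTransGen.head ⟨hbc.1.symm, hbc.2.2, hbc.2.1⟩ ih

theorem Rch.trans {T : Set V} {u v w : V} (h : Rch G T u v) (h' : Rch G T v w) : Rch G T u w :=
  Relation.ReflTransGen.trans h h'

theorem Rch.single {T : Set V} {u v : V} (h : G.Adj u v) (hu : u ∈ T) (hv : v ∈ T) :
    Rch G T u v := Relation.ReflTransGen.single ⟨h, hu, hv⟩

theorem Rch.mono {T T' : Set V} {u v : V} (h : Rch G T u v) (hT : ∀ a ∈ T, Rch G T u a → a ∈ T') :
    Rch G T' u v := by
  induction h with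
  | refl => exact Relation.ReflTransGen.refl
  | tail hab hbc ih =>
    exact Relation.ReflTransGen.tail ih ⟨hbc.1, hT _ hbc.2.1 hab,
      hT _ hbc.2.2 (Relation.ReflTransGen.tail hab hbc)⟩

theorem Rch.mem {T : Set V} {u v : V} (h : Rch G T u v) (hu : u ∈ T) : v ∈ T := by
  induction h with
  | refl => exact hu
  | tail _ hbc _ => exact hbc.2.2

theorem boundary {r : V → V → Prop} {P : V → Prop} {u v : V} (h : Relation.ReflTransGen r u v)
    (hu : P u) (hv : ¬ P v) : ∃ a b, r a b ∧ P a ∧ ¬ P b := by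
  induction h with
  | refl => exact absurd hu hv
  | @tail b c hab hbc ih =>
    by_cases hb : P b
    · exact ⟨b, c, hbc, hb, hv⟩
    · exact ih hb

variable (G)

/-- the last vertex of the list is `u`, every other vertex has a neighbour later in the list -/
def Ord (u : V) (l : List V) : Prop :=
  ∀ l₁ v l₂, l = l₁ ++ v :: l₂ → (l₂ = [] ∧ v = u) ∨ ∃ w ∈ l₂, G.Adj v w

theorem explore {T : Set V} (hT : T.Finite) {u : V} (hu : u ∈ T) (h : ∀ v ∈ T, Rch G T u v) :
    ∃ l : List V, l.Nodup ∧ (∀ v, v ∈ l ↔ v ∈ T) ∧ Ord G u l := by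
  classical
  have key : ∀ n : ℕ, ∃ l : List V, l.Nodup ∧ (∀ v ∈ l, v ∈ T) ∧ u ∈ l ∧ Ord G u l ∧
      (n ≤ l.length ∨ ∀ v ∈ T, v ∈ l) := by
    intro n
    induction n with
    | zero =>
      refine ⟨[u], List.nodup_singleton u, by simpa using hu, by simp, ?_, Or.inl (Nat.zero_le _)⟩
      intro l₁ v l₂ hl
      left
      have hlen := congrArg List.length hl
      simp only [List.length_cons, List.length_nil, List.length_append] at hlen
      have h1 : l₁ = [] := List.length_eq_zero_iff.1 (by omega)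
      have h2 : l₂ = [] := List.length_eq_zero_iff.1 (by omega)
      subst h1 h2
      simp only [List.nil_append, List.cons.injEq, and_true] at hl
      exact ⟨rfl, hl.symm⟩
    | succ n ih =>
      obtain ⟨l, h1, h2, h3, h4, h5⟩ := ih
      by_cases hall : ∀ v ∈ T, v ∈ l
      · exact ⟨l, h1, h2, h3, h4, Or.inr hall⟩
      · have h5' : n ≤ l.length := h5.resolve_right hall
        push Not at hall
        obtain ⟨z, hzT, hzl⟩ := hall
        obtain ⟨a, b, ⟨hab, haT, hbT⟩, ha, hb⟩ := boundary (P := fun v => v ∈ l) (h z hzT) h3 hzl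
        refine ⟨b :: l, List.nodup_cons.2 ⟨hb, h1⟩, ?_, List.mem_cons_of_mem _ h3, ?_, Or.inl ?_⟩
        · intro v hv
          rcases List.mem_cons.1 hv with rfl | hv
          · exact hbT
          · exact h2 v hv
        · intro l₁ v l₂ hl
          cases l₁ with
          | nil =>
            simp only [List.nil_append, List.cons.injEq] at hl
            obtain ⟨rfl, rfl⟩ := hl
            exact Or.inr ⟨a, ha, hab.symm⟩
          | cons x l₁ =>
            simp only [List.cons_append, List.cons.injEq] at hl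
            exact h4 l₁ v l₂ hl.2
        · simp only [List.length_cons]
          omega
  obtain ⟨l, h1, h2, h3, h4, h5⟩ := key (hT.toFinset.card + 1)
  have h6 : ∀ v ∈ T, v ∈ l := by
    refine h5.resolve_left ?_
    intro hlen
    have h7 : l.toFinset ⊆ hT.toFinset := by
      intro v hv
      exact hT.mem_toFinset.2 (h2 v (List.mem_toFinset.1 hv))
    have h8 := Finset.card_le_card h7
    rw [List.toFinset_card_of_nodup h1] at h8
    omega
  exact ⟨l, h1, fun v => ⟨h2 v, h6 v⟩, h4⟩

variable {G}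

theorem idx_lt [DecidableEq V] {l l₁ l₂ : List V} {v w : V} (h : l = l₁ ++ v :: l₂)
    (hn : l.Nodup) (hw : w ∉ l₁) (hwv : w ≠ v) : l.idxOf v < l.idxOf w := by
  subst h
  have hv : v ∉ l₁ := by
    intro hv
    have := List.disjoint_of_nodup_append hn
    exact this hv (by simp)
  rw [List.idxOf_append_of_notMem hv, List.idxOf_append_of_notMem hw, List.idxOf_cons_self,
    List.idxOf_cons_ne _ hwv.symm]
  omega

theorem idx_mem_lt [DecidableEq V] {l l₁ l₂ : List V} {v w : V} (h : l = l₁ ++ v :: l₂)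
    (hn : l.Nodup) (hw : w ∈ l₂) : l.idxOf v < l.idxOf w := by
  subst h
  have h1 := List.nodup_append.1 hn
  have h2 := List.nodup_cons.1 h1.2.1
  refine idx_lt rfl hn ?_ ?_
  · intro hw1
    exact h1.2.2 w hw1 w (List.mem_cons_of_mem _ hw) rfl
  · rintro rfl
    exact h2.1 hw

/-- order of a finite set of vertices -/
theorem order_finite {T : Set V} (hT : T.Finite) {u : V} (hu : u ∈ T)
    (h : ∀ v ∈ T, Rch G T u v) [Finite V] :
    ∃ e : V → ℕ, Function.Injective e ∧ ∀ v ∈ T, v ≠ u → ∃ w ∈ T, G.Adj v w ∧ e v < e w := by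
  classical
  obtain ⟨l, hl1, hl2, hl3⟩ := explore G hT hu h
  obtain ⟨n, f, hf⟩ : ∃ (n : ℕ) (f : V → ℕ), Function.Injective f := ⟨0, _, (Finite.equivFin V).injective.comp
    (fun _ _ h => h) |> fun h => Fin.val_injective.comp h⟩
  refine ⟨fun v => if v ∈ T then l.idxOf v else l.length + f v, ?_, ?_⟩
  · intro v w hvw
    simp only at hvw
    by_cases hv : v ∈ T
    · by_cases hw : w ∈ T
      · rw [if_pos hv, if_pos hw] at hvw
        exact (List.idxOf_inj ((hl2 v).2 hv)).1 hvw
      · rw [if_pos hv, if_neg hw] at hvw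
        have := List.idxOf_lt_length_of_mem ((hl2 v).2 hv)
        omega
    · by_cases hw : w ∈ T
      · rw [if_neg hv, if_pos hw] at hvw
        have := List.idxOf_lt_length_of_mem ((hl2 w).2 hw)
        omega
      · rw [if_neg hv, if_neg hw] at hvw
        exact hf (by omega)
  · intro v hv hvu
    obtain ⟨l₁, l₂, hl⟩ := List.append_of_mem ((hl2 v).2 hv)
    rcases hl3 l₁ v l₂ hl with ⟨-, h2⟩ | ⟨w, hw, hvw⟩
    · exact absurd h2 hvu
    · have hwl : w ∈ l := by
        rw [hl]
        exact List.mem_append_right _ (List.mem_cons_of_mem _ hw)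
      have hwT := (hl2 w).1 hwl
      refine ⟨w, hwT, hvw, ?_⟩
      simp only [if_pos hv, if_pos hwT]
      exact idx_mem_lt hl hl1 hw

/-- everything except the vertex `x` and its neighbours other than `d` -/
def Tx (G : SimpleGraph V) (x d : V) : Set V := {v | v ≠ x ∧ (v = d ∨ ¬ G.Adj x v)}

theorem exists_pair [Finite V] (hc : ∀ u v : V, Relation.ReflTransGen G.Adj u v)
    (h : ∃ x d, G.Adj x d) : ∃ x d, G.Adj x d ∧ ∀ v ∈ Tx G x d, Rch G (Tx G x d) d v := by
  classical
  let s : Set (V × V) := {p | G.Adj p.1 p.2}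
  have hs : s.Finite := Set.toFinite s
  have hne : s.Nonempty := by
    obtain ⟨x, d, hxd⟩ := h
    exact ⟨(x, d), hxd⟩
  obtain ⟨⟨x, d⟩, hxd, hmax⟩ := Set.exists_max_image s
    (fun p => {v | Rch G (Tx G p.1 p.2) p.2 v}.ncard) hs hne
  have hxd' : G.Adj x d := hxd
  refine ⟨x, d, hxd', ?_⟩
  by_contra hcon
  push Not at hcon
  obtain ⟨z, hzT, hz⟩ := hcon
  have hdT : d ∈ Tx G x d := ⟨hxd'.ne', Or.inl rfl⟩
  obtain ⟨x', a, hx'a, hPx', hPa⟩ := boundary (P := fun v => Rch G (Tx G x d) z v) (hc z d)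
    Relation.ReflTransGen.refl (fun h => hz h.symm)
  have hx'T : x' ∈ Tx G x d := hPx'.mem hzT
  have hdx' : ¬ Rch G (Tx G x d) d x' := fun h => hz (h.trans hPx'.symm)
  have hx'd : x' ≠ d := fun h => hdx' (h ▸ Relation.ReflTransGen.refl)
  have hxx' : ¬ G.Adj x x' := hx'T.2.resolve_left hx'd
  have haT : a ∉ Tx G x d := fun h => hPa (hPx'.trans (Rch.single hx'a hx'T h))
  have hax : a ≠ x := by
    rintro rfl
    exact hxx' hx'a.symm
  have hxa : G.Adj x a := by
    by_contra hna
    exact haT ⟨hax, Or.inr hna⟩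
  -- the new set
  have haT' : a ∈ Tx G x' a := ⟨hx'a.ne', Or.inl rfl⟩
  have hxT' : x ∈ Tx G x' a := ⟨hx'T.1.symm, Or.inr fun h => hxx' h.symm⟩
  have hRT' : ∀ v ∈ Tx G x d, Rch G (Tx G x d) d v → v ∈ Tx G x' a := by
    intro v hvT hv
    refine ⟨?_, Or.inr ?_⟩
    · rintro rfl
      exact hdx' hv
    · intro hx'v
      exact hdx' (hv.trans (Rch.single hx'v.symm hvT hx'T))
  have hdT' : d ∈ Tx G x' a := hRT' d hdT Relation.ReflTransGen.refl
  have had : Rch G (Tx G x' a) a d :=
    (Rch.single hxa.symm haT' hxT').trans (Rch.single hxd' hxT' hdT')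
  have hlt : {v | Rch G (Tx G x d) d v}.ncard < {v | Rch G (Tx G x' a) a v}.ncard := by
    refine Set.ncard_lt_ncard ?_ (Set.toFinite _)
    rw [Set.ssubset_iff_exists]
    refine ⟨fun v hv => had.trans (Rch.mono hv fun w hw1 hw2 => hRT' w hw1 hw2), x, ?_, ?_⟩
    · exact Rch.single hxa.symm haT' hxT'
    · intro hx
      have : x ∈ Tx G x d := Rch.mem hx hdT
      exact this.1 rfl
  have := hmax (x', a) hx'a
  simp only at this
  omega

end Pool.Agent.Lib.MP_a24e3f_co.M4
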