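import Pool.Agent.Lib.MP_a24e3f_co.M4.Para

/-!
# Extension by a point with three neighbours and a last point with four neighbours
-/

set_option autoImplicit false

namespace Pool.Agent.Lib.MP_a24e3f_co.M4

open Polynomial

/-- In a set in general position which contains two points of the axis, no other point is on the
axis. -/
theorem off_axis {S : Finset Pt} (hS : GP S) {γ γ' : ℚ} (h1 : ((γ, 0) : Pt) ∈ S)
    (h2 : ((γ', 0) : Pt) ∈ S) (hne : γ ≠ γ') {u : Pt} (hu : u ∈ S) (hu1 : u ≠ (γ, 0))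
    (hu2 : u ≠ (γ', 0)) : u.2 ≠ 0 := by
  have h := hS _ h1 _ h2 u hu (fun h => hne (congrArg Prod.fst h)) (Ne.symm hu2) (Ne.symm hu1)
  intro h0
  apply h
  unfold cr cA
  simp only [Prod.fst_sub, Prod.snd_sub, h0]
  ring

theorem extend4_aux {D : ℚ} (hD : 0 < D) (S : Finset Pt) (hS : GP S) {α β γ γ' : ℚ}
    (hβ : β ≠ 0) (hγ : γ ≠ γ') (_mA : ((α, β) : Pt) ∈ S) (_mB : ((α, -β) : Pt) ∈ S)
    (mC : ((γ, 0) : Pt) ∈ S) (mC' : ((γ', 0) : Pt) ∈ S) {a b c : Pt} (ha : a ∈ S) (hb : b ∈ S)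
    (hc : c ∈ S) (hab : a ≠ b) (hbc : b ≠ c) (hac : a ≠ c) (hab2 : b.2 ≠ a.2) :
    ∃ (z : Pt) (t : ℚ), (∀ x ∈ S, ∀ y ∈ S, x ≠ y → cr x y z ≠ 0) ∧ IsSquare (nm D (z - a)) ∧
      IsSquare (nm D (z - b)) ∧ IsSquare (nm D (z - c)) ∧
      (∀ d ∈ S, d ≠ a → d ≠ b → d ≠ c → ¬ IsSquare (nm D (z - d))) ∧
      IsSquare (nm D ((t, 0) - (α, β))) ∧ IsSquare (nm D ((t, 0) - (α, -β))) ∧
      IsSquare (nm D ((t, 0) - (γ, 0))) ∧ IsSquare (nm D ((t, 0) - z)) ∧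
      (∀ u ∈ S, u ≠ (α, β) → u ≠ (α, -β) → u ≠ (γ, 0) → u ≠ (γ', 0) →
        ¬ IsSquare (nm D ((t, 0) - u))) ∧
      (∀ u ∈ S, ∀ v ∈ S, u ≠ (γ', 0) → v ≠ (γ', 0) → u ≠ v → cr u v (t, 0) ≠ 0) ∧
      ∀ u ∈ S, u ≠ (γ', 0) → cr u z (t, 0) ≠ 0 := by
  classical
  have hA : cA (b - a) (c - a) ≠ 0 := hS a ha b hb c hc hab hbc hac
  have hb2 : (b - a).2 ≠ 0 := by
    simp only [Prod.snd_sub]
    exact sub_ne_zero.2 hab2
  obtain ⟨S', hS'⟩ : ∃ S', S' = S.filter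
    (fun u => u ≠ (α, β) ∧ u ≠ (α, -β) ∧ u ≠ (γ, 0) ∧ u ≠ (γ', 0)) := ⟨_, rfl⟩
  have hFF : ∀ u ∈ S', ∃ G H : ℚ[X], FF D (b - a) (c - a) ((α, β) - a) ((γ, 0) - a) β (u.1 - α) u.2 =
      G * H ^ 2 ∧ H ≠ 0 ∧ HasSimpleRoot G := by
    intro u hu
    rw [hS', Finset.mem_filter] at hu
    obtain ⟨hu, h1, h2, h3, h4⟩ := hu
    apply FF_part D _ _ _ _ β hD hA hb2 hβ
    · exact off_axis hS mC mC' hγ hu h3 h4
    · rintro ⟨e1, e2⟩
      have e1' : u.1 = α := sub_eq_zero.1 e1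
      rcases sq_eq_sq_iff_eq_or_eq_neg.1 e2 with e3 | e3
      · exact h1 (Prod.ext e1' e3)
      · exact h2 (Prod.ext e1' e3)
  choose! G H hG1 hG2 hG3 using hFF
  obtain ⟨S1, hS1⟩ : ∃ S1, S1 = S.filter (fun u => u ≠ (γ', 0)) := ⟨_, rfl⟩
  -- the bad polynomial
  have hB1 : bP D (b - a) (c - a) * ∏ p ∈ (S ×ˢ S).filter (fun p => p.1 ≠ p.2),
      TP D (b - a) (c - a) (p.1 - a) (p.2 - p.1) ≠ 0 := by
    apply mul_ne_zero (bP_ne D _ _ hA)
    rw [Finset.prod_ne_zero_iff]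
    intro p hp
    rw [Finset.mem_filter] at hp
    exact TP_ne D _ _ _ hD _ hA (sub_ne_zero.mpr (Ne.symm hp.2))
  have hB2 : MM D (b - a) (c - a) ((α, β) - a) ((γ, 0) - a) β ≠ 0 := MM_ne D _ _ _ _ β hD hA hb2
  have hB3 : ∏ p ∈ (S1 ×ˢ S1).filter (fun p => p.1 ≠ p.2),
      (C (-(p.2.2 - p.1.2)) * NN D (b - a) (c - a) ((α, β) - a) ((γ, 0) - a) β +
        C (-(p.1.2 * (p.2.1 - p.1.1) + (α - p.1.1) * (p.2.2 - p.1.2))) *
          MM D (b - a) (c - a) ((α, β) - a) ((γ, 0) - a) β) ≠ 0 := by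
    rw [Finset.prod_ne_zero_iff]
    rintro ⟨u, v⟩ hp
    rw [Finset.mem_filter, Finset.mem_product, hS1, Finset.mem_filter, Finset.mem_filter] at hp
    obtain ⟨⟨⟨hu, hu'⟩, hv, hv'⟩, huv⟩ := hp
    simp only at hu hu' hv hv' huv ⊢
    apply indepQ D _ _ _ _ β hD hA hb2
    by_contra hcon
    push Not at hcon
    obtain ⟨h1, h2⟩ := hcon
    have e1 : v.2 - u.2 = 0 := neg_eq_zero.1 h1
    rw [e1, mul_zero, add_zero, neg_eq_zero, mul_eq_zero] at h2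
    rcases h2 with h2 | h2
    · have hv2 : v.2 = 0 := by rw [sub_eq_zero.1 e1, h2]
      have k1 : u = (γ, 0) := by
        by_contra hne
        exact off_axis hS mC mC' hγ hu hne hu' h2
      have k2 : v = (γ, 0) := by
        by_contra hne
        exact off_axis hS mC mC' hγ hv hne hv' hv2
      exact huv (k1.trans k2.symm)
    · exact huv (Prod.ext (sub_eq_zero.1 h2).symm (sub_eq_zero.1 e1).symm)
  have hB4 : ∏ u ∈ S1, KK D (b - a) (c - a) ((α, β) - a) ((γ, 0) - a) β (u.1 - α) u.2 ≠ 0 := by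
    rw [Finset.prod_ne_zero_iff]
    intro u _
    exact KK_ne D _ _ _ _ β hD hA hb2 _ _
  have hB5 : ∏ u ∈ S', H u ≠ 0 := by
    rw [Finset.prod_ne_zero_iff]
    intro u hu
    exact hG2 u hu
  obtain ⟨s, hs1, hs2⟩ := exists_good
    (fun j : Bool × Pt => if j.1 = true then G j.2 else FP D (b - a) (c - a) (j.2 - a))
    (({true} : Finset Bool) ×ˢ S' ∪
      ({false} : Finset Bool) ×ˢ S.filter (fun d => d ≠ a ∧ d ≠ b ∧ d ≠ c)) (by
      rintro ⟨i, d⟩ hd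
      rw [Finset.mem_union, Finset.mem_product, Finset.mem_product, Finset.mem_singleton,
        Finset.mem_singleton] at hd
      simp only at hd ⊢
      rcases hd with ⟨rfl, hd⟩ | ⟨rfl, hd⟩
      · rw [if_pos rfl]
        exact hG3 d hd
      · rw [if_neg (by decide)]
        rw [Finset.mem_filter] at hd
        apply FP_simpleRoot hD _ _ _ hA (sub_ne_zero.mpr hd.2.1)
        · intro h; exact hd.2.2.1 (sub_left_inj.mp h)
        · intro h; exact hd.2.2.2 (sub_left_inj.mp h))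
    _ (mul_ne_zero (mul_ne_zero (mul_ne_zero (mul_ne_zero hB1 hB2) hB3) hB4) hB5)
  rw [eval_mul, eval_mul, eval_mul, eval_mul, eval_mul, eval_prod, eval_prod, eval_prod,
    eval_prod, mul_ne_zero_iff, mul_ne_zero_iff, mul_ne_zero_iff, mul_ne_zero_iff,
    mul_ne_zero_iff, Finset.prod_ne_zero_iff, Finset.prod_ne_zero_iff, Finset.prod_ne_zero_iff,
    Finset.prod_ne_zero_iff] at hs1
  obtain ⟨⟨⟨⟨⟨hs1, hs3⟩, hM⟩, hL⟩, hKs⟩, hHs⟩ := hs1
  have hs0 : 1 + D * s ^ 2 ≠ 0 := by positivity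
  have hden : (bP D (b - a) (c - a)).eval s * (1 + D * s ^ 2) ≠ 0 := mul_ne_zero hs1 hs0
  obtain ⟨z, hz⟩ : ∃ z, z = a + newW D (b - a) (c - a) s := ⟨_, rfl⟩
  have hzd : ∀ d, z - d = newW D (b - a) (c - a) s - (d - a) := by
    intro d; rw [hz]; abel
  have hcr : ∀ x ∈ S, ∀ y ∈ S, x ≠ y → cr x y z ≠ 0 := by
    intro x hx y hy hxy
    unfold cr
    rw [cA_anti, neg_ne_zero, hzd]
    apply cA_newW D _ _ _ _ _ hs1 hs0
    exact hs3 (x, y) (by
      rw [Finset.mem_filter, Finset.mem_product]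
      exact ⟨⟨hx, hy⟩, hxy⟩)
  have hnm : ∀ d, nm D (z - d) = (FP D (b - a) (c - a) (d - a)).eval s /
      ((bP D (b - a) (c - a)).eval s * (1 + D * s ^ 2)) ^ 2 := by
    intro d
    rw [hzd]
    exact nm_newW D _ _ _ _ hs1 hs0
  -- values of the polynomials
  obtain ⟨vD, hvD⟩ : ∃ v, v = (dn D (b - a) (c - a)).eval s := ⟨_, rfl⟩
  obtain ⟨vX, hvX⟩ : ∃ v, v = (Dl D (b - a) (c - a) ((α, β) - a)).eval s := ⟨_, rfl⟩
  obtain ⟨vE, hvE⟩ : ∃ v, v = (Ep D (b - a) (c - a) ((γ, 0) - a)).eval s := ⟨_, rfl⟩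
  obtain ⟨v1, hv1⟩ : ∃ v, v = (H1 D (b - a) (c - a) ((γ, 0) - a) β).eval s := ⟨_, rfl⟩
  obtain ⟨v2, hv2⟩ : ∃ v, v = (H2 D (b - a) (c - a) ((α, β) - a)).eval s := ⟨_, rfl⟩
  obtain ⟨vN, hvN⟩ : ∃ v, v = (NN D (b - a) (c - a) ((α, β) - a) ((γ, 0) - a) β).eval s :=
    ⟨_, rfl⟩
  obtain ⟨vM, hvM⟩ : ∃ v, v = (MM D (b - a) (c - a) ((α, β) - a) ((γ, 0) - a) β).eval s :=
    ⟨_, rfl⟩
  have r1 : v1 = D * (vE ^ 2 - β ^ 2 * vD ^ 2) := by
    rw [hv1, hvE, hvD]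
    unfold H1
    simp only [eval_mul, eval_sub, eval_pow, eval_C]
  have r2 : v2 = 2 * vX * vD := by
    rw [hv2, hvX, hvD]
    unfold H2
    simp only [eval_mul, eval_ofNat]
  have rN : vN = v1 ^ 2 - D * β ^ 2 * v2 ^ 2 := by
    rw [hvN, hv1, hv2]
    unfold NN
    simp only [eval_mul, eval_sub, eval_pow, eval_C]
  have rM : vM = 2 * v1 * v2 := by
    rw [hvM, hv1, hv2]
    unfold MM
    simp only [eval_mul, eval_ofNat]
  rw [← hvM] at hM
  have hv10 : v1 ≠ 0 := by rintro h0; apply hM; rw [rM, h0]; ring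
  have hv20 : v2 ≠ 0 := by rintro h0; apply hM; rw [rM, h0]; ring
  have hvX0 : vX ≠ 0 := by rintro h0; apply hv20; rw [r2, h0]; ring
  have hvD0 : vD ≠ 0 := by rintro h0; apply hv20; rw [r2, h0]; ring
  have z1 : z.1 = α + vX / vD := by
    have h1 := hzd (α, β)
    rw [newW_sub' D _ _ _ s hs1 hs0] at h1
    have h2 := congrArg Prod.fst h1
    simp only [Prod.fst_sub] at h2
    have h3 : vX = -(Nx D (b - a) (c - a) ((α, β) - a)).eval s := by
      rw [hvX]; unfold Dl; rw [eval_neg]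
    rw [h3, hvD]
    linarith
  have z2 : z.2 = vE / vD := by
    have h1 := hzd (γ, 0)
    rw [newW_sub' D _ _ _ s hs1 hs0] at h1
    have h2 := congrArg Prod.snd h1
    simp only [Prod.snd_sub] at h2
    have h3 : vE = -(Ny D (b - a) (c - a) ((γ, 0) - a)).eval s := by
      rw [hvE]; unfold Ep; rw [eval_neg]
    rw [h3, hvD]
    linarith
  obtain ⟨t, ht⟩ : ∃ t, t = α + vN / vM := ⟨_, rfl⟩
  have hFFu : ∀ u : Pt, nm D ((t, 0) - u) =
      (FF D (b - a) (c - a) ((α, β) - a) ((γ, 0) - a) β (u.1 - α) u.2).eval s / vM ^ 2 := by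
    intro u
    unfold nm FF
    simp only [Prod.fst_sub, Prod.snd_sub, eval_add, eval_mul, eval_sub, eval_pow, eval_C]
    rw [← hvN, ← hvM, ht]
    field_simp
    ring
  refine ⟨z, t, hcr, ?_, ?_, ?_, ?_, ?_, ?_, ?_, ?_, ?_, ?_, ?_⟩
  · rw [hnm, sub_self]
    exact (FP_sq0 D _ _ _).div (IsSquare.sq _)
  · rw [hnm]
    exact (FP_sq1 D _ _ _).div (IsSquare.sq _)
  · rw [hnm]
    exact (FP_sq2 D _ _ _).div (IsSquare.sq _)
  · intro d hd hda hdb hdc hsq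
    rw [hnm] at hsq
    have h1 := isSquare_of_div hden hsq
    have hzne : z - d ≠ 0 := by
      intro h0
      have h2 := hcr d hd a ha hda
      apply h2
      unfold cr
      rw [h0]
      unfold cA
      simp
    have h3 : (FP D (b - a) (c - a) (d - a)).eval s ≠ 0 := by
      intro h0
      have h4 := hnm d
      rw [h0, zero_div] at h4
      exact (nm_pos hD hzne).ne' h4
    have h5 := hs2 (false, d) (by
      rw [Finset.mem_union, Finset.mem_product, Finset.mem_product]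
      right
      exact ⟨by simp, by rw [Finset.mem_filter]; exact ⟨hd, hda, hdb, hdc⟩⟩)
    simp only at h5
    rw [if_neg (by decide)] at h5
    exact h5 h3 h1
  · refine ⟨(v1 ^ 2 + D * β ^ 2 * v2 ^ 2) / vM, ?_⟩
    unfold nm
    simp only [Prod.fst_sub, Prod.snd_sub]
    rw [ht, rN, rM]
    field_simp
    ring
  · refine ⟨(v1 ^ 2 + D * β ^ 2 * v2 ^ 2) / vM, ?_⟩
    unfold nm
    simp only [Prod.fst_sub, Prod.snd_sub]
    rw [ht, rN, rM]
    field_simp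
    ring
  · refine ⟨t - γ, ?_⟩
    unfold nm
    simp only [Prod.fst_sub, Prod.snd_sub]
    ring
  · refine ⟨(v1 ^ 2 + D * β ^ 2 * v2 ^ 2) / vM + vX / vD, ?_⟩
    unfold nm
    simp only [Prod.fst_sub, Prod.snd_sub]
    rw [z1, z2, ht]
    have e1 : (α + vN / vM - (α + vX / vD)) ^ 2 + D * (0 - vE / vD) ^ 2 -
        ((v1 ^ 2 + D * β ^ 2 * v2 ^ 2) / vM + vX / vD) * ((v1 ^ 2 + D * β ^ 2 * v2 ^ 2) / vM + vX / vD)
        = 0 := by
      rw [rN, rM]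
      have e2 : (α + (v1 ^ 2 - D * β ^ 2 * v2 ^ 2) / (2 * v1 * v2) - (α + vX / vD)) ^ 2 +
          D * (0 - vE / vD) ^ 2 -
          ((v1 ^ 2 + D * β ^ 2 * v2 ^ 2) / (2 * v1 * v2) + vX / vD) *
          ((v1 ^ 2 + D * β ^ 2 * v2 ^ 2) / (2 * v1 * v2) + vX / vD) =
          D * (vE / vD) ^ 2 - D * β ^ 2 - 2 * (v1 / v2) * (vX / vD) := by
        field_simp
        ring
      rw [e2, r2]
      have e3 : 2 * (v1 / (2 * vX * vD)) * (vX / vD) = v1 / vD ^ 2 := by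
        field_simp
      rw [e3, r1]
      field_simp
      ring
    linarith
  · intro u hu h1 h2 h3 h4 hsq
    have hu' : u ∈ S' := by
      rw [hS', Finset.mem_filter]
      exact ⟨hu, h1, h2, h3, h4⟩
    have hu2 := off_axis hS mC mC' hγ hu h3 h4
    rw [hFFu, hG1 u hu', eval_mul, eval_pow] at hsq
    have hpos : nm D ((t, 0) - u) ≠ 0 := by
      apply (nm_pos hD _).ne'
      intro h0
      apply hu2
      have := congrArg Prod.snd h0
      simp only [Prod.snd_sub, Prod.snd_zero] at this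
      linarith
    rw [hFFu, hG1 u hu', eval_mul, eval_pow] at hpos
    have hg0 : (G u).eval s ≠ 0 := by
      intro h0
      apply hpos
      rw [h0]
      simp
    have h5 := hs2 (true, u) (by
      rw [Finset.mem_union, Finset.mem_product]
      left
      exact ⟨by simp, hu'⟩)
    simp only [if_true] at h5
    apply h5 hg0
    have h6 := isSquare_of_div hM hsq
    obtain ⟨w, hw⟩ := h6
    have hH0 := hHs u hu'
    refine ⟨w / (H u).eval s, ?_⟩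
    field_simp
    rw [hw]
    ring
  · intro u hu v hv hu' hv' huv h0
    apply hL (u, v) (by
      rw [Finset.mem_filter, Finset.mem_product, hS1, Finset.mem_filter, Finset.mem_filter]
      exact ⟨⟨⟨hu, hu'⟩, hv, hv'⟩, huv⟩)
    simp only [eval_add, eval_mul, eval_C]
    rw [← hvN, ← hvM]
    unfold cr cA at h0
    simp only [Prod.fst_sub, Prod.snd_sub] at h0
    rw [ht] at h0
    have e1 : vM * ((0 - u.2) * (v.1 - u.1) - (α + vN / vM - u.1) * (v.2 - u.2)) =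
        -(v.2 - u.2) * vN + -(u.2 * (v.1 - u.1) + (α - u.1) * (v.2 - u.2)) * vM := by
      field_simp
      ring
    rw [← e1, h0, mul_zero]
  · intro u hu hu' h0
    apply hKs u (by rw [hS1, Finset.mem_filter]; exact ⟨hu, hu'⟩)
    unfold KK
    simp only [eval_add, eval_mul, eval_C, eval_sub]
    rw [← hvN, ← hvM, ← hvX, ← hvE, ← hvD]
    unfold cr cA at h0
    simp only [Prod.fst_sub, Prod.snd_sub] at h0
    rw [ht, z1, z2] at h0
    have e1 : -(vM * vD) * ((0 - u.2) * (α + vX / vD - u.1) - (α + vN / vM - u.1) * (vE / vD - u.2)) =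
        u.2 * (vX - (u.1 - α) * vD) * vM + (vN - (u.1 - α) * vM) * (vE - u.2 * vD) := by
      field_simp
      ring
    rw [← e1, h0, mul_zero]

/-- The extension by the last two points: `z` has exactly the neighbours `B`, `x = (t, 0)` exactly the
neighbours `(α, β)`, `(α, -β)`, `(γ, 0)` and `z` (apart from the auxiliary point `(γ', 0)`). -/
theorem extend4 {D : ℚ} (hD : 0 < D) (S : Finset Pt) (hS : GP S) {α β γ γ' : ℚ}
    (hβ : β ≠ 0) (hγ : γ ≠ γ') (mA : ((α, β) : Pt) ∈ S) (mB : ((α, -β) : Pt) ∈ S)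
    (mC : ((γ, 0) : Pt) ∈ S) (mC' : ((γ', 0) : Pt) ∈ S) (B : Finset Pt) (hB : B ⊆ S)
    (hcard : B.card = 3) :
    ∃ (z : Pt) (t : ℚ), (∀ x ∈ S, ∀ y ∈ S, x ≠ y → cr x y z ≠ 0) ∧
      (∀ d ∈ S, (IsSquare (nm D (z - d)) ↔ d ∈ B)) ∧
      IsSquare (nm D ((t, 0) - (α, β))) ∧ IsSquare (nm D ((t, 0) - (α, -β))) ∧
      IsSquare (nm D ((t, 0) - (γ, 0))) ∧ IsSquare (nm D ((t, 0) - z)) ∧
      (∀ u ∈ S, u ≠ (α, β) → u ≠ (α, -β) → u ≠ (γ, 0) → u ≠ (γ', 0) →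
        ¬ IsSquare (nm D ((t, 0) - u))) ∧
      (∀ u ∈ S, ∀ v ∈ S, u ≠ (γ', 0) → v ≠ (γ', 0) → u ≠ v → cr u v (t, 0) ≠ 0) ∧
      ∀ u ∈ S, u ≠ (γ', 0) → cr u z (t, 0) ≠ 0 := by
  classical
  have main : ∀ a b c : Pt, a ∈ S → b ∈ S → c ∈ S → a ≠ b → b ≠ c → a ≠ c → b.2 ≠ a.2 →
      (∀ d, d ∈ B ↔ d = a ∨ d = b ∨ d = c) →
      ∃ (z : Pt) (t : ℚ), (∀ x ∈ S, ∀ y ∈ S, x ≠ y → cr x y z ≠ 0) ∧
      (∀ d ∈ S, (IsSquare (nm D (z - d)) ↔ d ∈ B)) ∧
      IsSquare (nm D ((t, 0) - (α, β))) ∧ IsSquare (nm D ((t, 0) - (α, -β))) ∧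
      IsSquare (nm D ((t, 0) - (γ, 0))) ∧ IsSquare (nm D ((t, 0) - z)) ∧
      (∀ u ∈ S, u ≠ (α, β) → u ≠ (α, -β) → u ≠ (γ, 0) → u ≠ (γ', 0) →
        ¬ IsSquare (nm D ((t, 0) - u))) ∧
      (∀ u ∈ S, ∀ v ∈ S, u ≠ (γ', 0) → v ≠ (γ', 0) → u ≠ v → cr u v (t, 0) ≠ 0) ∧
      ∀ u ∈ S, u ≠ (γ', 0) → cr u z (t, 0) ≠ 0 := by
    intro a b c ha hb hc hab hbc hac hab2 hmem
    obtain ⟨z, t, h1, h2, h3, h4, h5, h6⟩ := extend4_aux hD S hS hβ hγ mA mB mC mC' ha hb hc hab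
      hbc hac hab2
    refine ⟨z, t, h1, ?_, h6⟩
    intro d hd
    rw [hmem]
    constructor
    · intro hsq
      by_contra hcon
      push Not at hcon
      exact h5 d hd hcon.1 hcon.2.1 hcon.2.2 hsq
    · rintro (rfl | rfl | rfl)
      · exact h2
      · exact h3
      · exact h4
  obtain ⟨a, b, c, hab, hac, hbc, rfl⟩ := Finset.card_eq_three.1 hcard
  have ha : a ∈ S := hB (by simp)
  have hb : b ∈ S := hB (by simp)
  have hc : c ∈ S := hB (by simp)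
  by_cases h1 : b.2 = a.2
  · by_cases h2 : c.2 = a.2
    · exfalso
      apply hS a ha b hb c hc hab hbc hac
      unfold cr cA
      simp only [Prod.fst_sub, Prod.snd_sub, h1, h2]
      ring
    · exact main a c b ha hc hb hac hbc.symm hab h2 (by
        intro d
        simp only [Finset.mem_insert, Finset.mem_singleton]
        tauto)
  · exact main a b c ha hb hc hab hbc hac h1 (by
      intro d
      simp only [Finset.mem_insert, Finset.mem_singleton])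

end Pool.Agent.Lib.MP_a24e3f_co.M4
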