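import Mathlib

/-!
# Four squares in a pencil

Coprime complex polynomials `p`, `q` are constant if four members of the pencil which they span
are squares (the classical descent).
-/

set_option autoImplicit false

namespace Pool.Agent.Lib.MP_a24e3f_co.M4

open Polynomial

lemma C_two : (C 2 : ℂ[X]) = 2 := map_ofNat (C : ℂ →+* ℂ[X]) 2

lemma isSquare_C (c : ℂ) : IsSquare (C c : ℂ[X]) := by
  obtain ⟨r, hr⟩ := IsAlgClosed.exists_pow_nat_eq c (n := 2) two_pos
  exact ⟨C r, by rw [← C_mul, ← hr, sq]⟩

lemma isSquare_unit {u : ℂ[X]} (hu : IsUnit u) : IsSquare u := by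
  obtain ⟨c, -, rfl⟩ := Polynomial.isUnit_iff.1 hu
  exact isSquare_C c

/-- coprime factors of a square are squares -/
lemma isSquare_of_coprime {a b c : ℂ[X]} (h : IsCoprime a b) (hab : a * b = c ^ 2) :
    IsSquare a := by
  obtain ⟨d, hd⟩ := exists_associated_pow_of_mul_eq_pow' h hab
  obtain ⟨u, hu⟩ := hd
  rw [← hu]
  exact (IsSquare.sq d).mul (isSquare_unit u.isUnit)

lemma isSquare_C_mul {c : ℂ} (hc : c ≠ 0) {p : ℂ[X]} : IsSquare (C c * p) ↔ IsSquare p := by
  constructor
  · intro h
    have h2 : p = C c⁻¹ * (C c * p) := by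
      rw [← mul_assoc, ← C_mul, inv_mul_cancel₀ hc, C_1, one_mul]
    rw [h2]
    exact (isSquare_C _).mul h
  · intro h
    exact (isSquare_C _).mul h

/-- linear combinations of coprime polynomials are coprime -/
lemma coprime_comb {p q : ℂ[X]} (h : IsCoprime p q) {a b c d : ℂ} (hdet : a * d - b * c ≠ 0) :
    IsCoprime (C a * p + C b * q) (C c * p + C d * q) := by
  obtain ⟨x, y, hxy⟩ := h
  refine ⟨C (a * d - b * c)⁻¹ * (x * C d - y * C c), C (a * d - b * c)⁻¹ * (y * C a - x * C b), ?_⟩
  have h1 : (C (a * d - b * c)⁻¹ : ℂ[X]) * (C a * C d - C b * C c) = 1 := by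
    rw [← C_mul, ← C_mul, ← C_sub, ← C_mul, inv_mul_cancel₀ hdet, C_1]
  linear_combination (C (a * d - b * c)⁻¹ * (C a * C d - C b * C c)) * hxy + h1

lemma natDegree_zero_of_comb {p q : ℂ[X]} (h1 : (p - q).natDegree = 0) (h2 : (p + q).natDegree = 0) :
    p.natDegree = 0 ∧ q.natDegree = 0 := by
  obtain ⟨a, ha⟩ := natDegree_eq_zero.1 h1
  obtain ⟨b, hb⟩ := natDegree_eq_zero.1 h2
  have e1 : p = C ((a + b) / 2) := by
    have : (C (1 / 2) : ℂ[X]) * 2 = 1 := by
      rw [← C_two, ← C_mul]; norm_num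
    have e : C ((a + b) / 2) = C (1 / 2) * (C a + C b) := by
      rw [← C_add, ← C_mul]; congr 1; ring
    rw [e, ha, hb]
    linear_combination (-p) * this
  have e2 : q = C ((b - a) / 2) := by
    have : (C (1 / 2) : ℂ[X]) * 2 = 1 := by
      rw [← C_two, ← C_mul]; norm_num
    have e : C ((b - a) / 2) = C (1 / 2) * (C b - C a) := by
      rw [← C_sub, ← C_mul]; congr 1; ring
    rw [e, ha, hb]
    linear_combination (-q) * this
  rw [e1, e2]
  simp

lemma four_aux : ∀ (n : ℕ) (p q : ℂ[X]) (l : ℂ), p.natDegree ≤ n → q.natDegree ≤ n → l ≠ 0 →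
    l ≠ 1 → IsCoprime p q → IsSquare p → IsSquare q → IsSquare (p - q) → IsSquare (p - C l * q) →
    p.natDegree = 0 ∧ q.natDegree = 0 := by
  intro n
  induction n using Nat.strong_induction_on with
  | _ n ih =>
    intro p q l hp hq hl0 hl1 hco hsp hsq hs1 hs2
    rcases Nat.eq_zero_or_pos n with hn | hn
    · subst hn
      exact ⟨Nat.le_zero.1 hp, Nat.le_zero.1 hq⟩
    obtain ⟨u, hu⟩ := hsp
    obtain ⟨v, hv⟩ := hsq
    obtain ⟨m, hm⟩ := IsAlgClosed.exists_pow_nat_eq l (n := 2) two_pos
    have hm0 : m ≠ 0 := by rintro rfl; apply hl0; rw [← hm]; ring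
    have hm1 : m - 1 ≠ 0 := by
      intro h
      apply hl1
      rw [← hm, sub_eq_zero.1 h]
      ring
    have hm2 : m + 1 ≠ 0 := by
      intro h
      apply hl1
      rw [← hm, eq_neg_of_add_eq_zero_left h]
      ring
    have hcuv : IsCoprime u v := by
      rw [hu, hv] at hco
      exact (IsCoprime.of_mul_left_left (IsCoprime.of_mul_right_left hco))
    have huD : 2 * u.natDegree ≤ n := by
      rw [hu, ← sq, natDegree_pow] at hp
      exact hp
    have hvD : 2 * v.natDegree ≤ n := by
      rw [hv, ← sq, natDegree_pow] at hq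
      exact hq
    -- the four new squares
    have c1 : IsCoprime (u - v) (u + v) := by
      have := coprime_comb hcuv (a := 1) (b := -1) (c := 1) (d := 1) (by norm_num)
      simpa [sub_eq_add_neg] using this
    have c2 : IsCoprime (u - C m * v) (u + C m * v) := by
      have := coprime_comb hcuv (a := 1) (b := -m) (c := 1) (d := m) (by
        intro h
        apply hm0
        linear_combination h / 2)
      simpa [sub_eq_add_neg] using this
    obtain ⟨r1, hr1⟩ := hs1
    obtain ⟨r2, hr2⟩ := hs2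
    have e1 : (u - v) * (u + v) = r1 ^ 2 := by
      rw [sq, ← hr1, hu, hv]; ring
    have e2 : (u - C m * v) * (u + C m * v) = r2 ^ 2 := by
      have hCm : (C m : ℂ[X]) ^ 2 = C l := by rw [← C_pow, hm]
      rw [sq, ← hr2, hu, hv]
      linear_combination (-v ^ 2) * hCm
    have s1 : IsSquare (u - v) := isSquare_of_coprime c1 e1
    have s2 : IsSquare (u + v) := isSquare_of_coprime c1.symm (by rw [mul_comm]; exact e1)
    have s3 : IsSquare (u - C m * v) := isSquare_of_coprime c2 e2
    have s4 : IsSquare (u + C m * v) := isSquare_of_coprime c2.symm (by rw [mul_comm]; exact e2)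
    -- the new pair
    have hd1 : (u - v).natDegree ≤ max u.natDegree v.natDegree := natDegree_sub_le _ _
    have hd2 : (u + v).natDegree ≤ max u.natDegree v.natDegree := natDegree_add_le _ _
    have hmax : max u.natDegree v.natDegree < n := by
      rcases max_choice u.natDegree v.natDegree with h | h <;> omega
    have hCC : ∀ (c : ℂ) (w : ℂ[X]), (C c * w).natDegree ≤ w.natDegree := fun c w =>
      natDegree_C_mul_le c w
    have key := ih (max u.natDegree v.natDegree) hmax (C (m + 1) * (u - v)) (C (m - 1) * (u + v))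
      (((m + 1) / (m - 1)) ^ 2) ((hCC _ _).trans hd1) ((hCC _ _).trans hd2)
      (by positivity) ?_ ?_ ((isSquare_C_mul hm2).2 s1) ((isSquare_C_mul hm1).2 s2) ?_ ?_
    · have k1 : (u - v).natDegree = 0 := by
        have := key.1
        rwa [natDegree_C_mul hm2] at this
      have k2 : (u + v).natDegree = 0 := by
        have := key.2
        rwa [natDegree_C_mul hm1] at this
      obtain ⟨k3, k4⟩ := natDegree_zero_of_comb k1 k2
      rw [hu, hv, ← sq, ← sq, natDegree_pow, natDegree_pow, k3, k4]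
      simp
    · intro h
      rw [div_pow, div_eq_one_iff_eq (pow_ne_zero 2 hm1)] at h
      apply hm0
      linear_combination h / 4
    · rw [isCoprime_mul_unit_left_left (isUnit_C.2 (isUnit_iff_ne_zero.2 hm2)),
        isCoprime_mul_unit_left_right (isUnit_C.2 (isUnit_iff_ne_zero.2 hm1))]
      exact c1
    · have : C (m + 1) * (u - v) - C (m - 1) * (u + v) = C 2 * (u - C m * v) := by
        simp only [C_add, C_sub, C_1, C_two]
        ring
      rw [this, isSquare_C_mul two_ne_zero]
      exact s3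
    · have hd : (C (((m + 1) / (m - 1)) ^ 2) : ℂ[X]) * C (m - 1) = C ((m + 1) ^ 2 / (m - 1)) := by
        rw [← C_mul]
        congr 1
        field_simp
      have hd' : (C ((m + 1) ^ 2 / (m - 1)) : ℂ[X]) * C (m - 1) = C (m + 1) ^ 2 := by
        rw [← C_mul, ← C_pow]
        congr 1
        field_simp
      have : C (m + 1) * (u - v) - C (((m + 1) / (m - 1)) ^ 2) * (C (m - 1) * (u + v)) =
          C (-2 * (m + 1) / (m - 1)) * (u + C m * v) := by
        have e3 : (C (-2 * (m + 1) / (m - 1)) : ℂ[X]) * C (m - 1) = C (-2 * (m + 1)) := by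
          rw [← C_mul]
          congr 1
          field_simp
        have hne : (C (m - 1) : ℂ[X]) ≠ 0 := C_ne_zero.2 hm1
        apply mul_right_cancel₀ hne
        have e4 : (C (-2 * (m + 1)) : ℂ[X]) = -2 * C (m + 1) := by
          rw [C_mul, C_neg, C_two]
        have e5 : (C (m + 1) : ℂ[X]) = C m + 1 := by simp
        have e6 : (C (m - 1) : ℂ[X]) = C m - 1 := by simp
        rw [← mul_assoc (C (((m + 1) / (m - 1)) ^ 2)), hd]
        linear_combination (-(u + v)) * hd' - (u + C m * v) * e3 - (u + C m * v) * e4 +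
          (2 * (u + C m * v) + (u - v) * C (m - 1) - (u + v) * (C (m + 1) + C m + 1)) * e5 +
          (C m + 1) * (u - v) * e6
      rw [this, isSquare_C_mul]
      · exact s4
      · exact div_ne_zero (mul_ne_zero (by norm_num) hm2) hm1

/-- Four squares in a pencil. -/
theorem four_squares {p q : ℂ[X]} (hco : IsCoprime p q) {a b c d : ℂ} (hab : a ≠ b) (hac : a ≠ c)
    (had : a ≠ d) (hbc : b ≠ c) (hbd : b ≠ d) (hcd : c ≠ d) (ha : IsSquare (p - C a * q))
    (hb : IsSquare (p - C b * q)) (hc : IsSquare (p - C c * q)) (hd : IsSquare (p - C d * q)) :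
    p.natDegree = 0 ∧ q.natDegree = 0 := by
  have h1 : b - c ≠ 0 := sub_ne_zero.2 hbc
  have h2 : a - c ≠ 0 := sub_ne_zero.2 hac
  have h3 : b - a ≠ 0 := sub_ne_zero.2 hab.symm
  have h4 : b - d ≠ 0 := sub_ne_zero.2 hbd
  have h5 : a - d ≠ 0 := sub_ne_zero.2 had
  have h6 : c - d ≠ 0 := sub_ne_zero.2 hcd
  have key := four_aux _ (C (b - c) * (p - C a * q)) (C (a - c) * (p - C b * q))
    ((a - d) * (b - c) / ((b - d) * (a - c))) (le_max_left _ _) (le_max_right _ _) (by
      exact div_ne_zero (mul_ne_zero h5 h1) (mul_ne_zero h4 h2)) ?_ ?_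
      ((isSquare_C_mul h1).2 ha) ((isSquare_C_mul h2).2 hb) ?_ ?_
  · obtain ⟨k1, k2⟩ := key
    rw [natDegree_C_mul h1] at k1
    rw [natDegree_C_mul h2] at k2
    obtain ⟨x, hx⟩ := natDegree_eq_zero.1 k1
    obtain ⟨y, hy⟩ := natDegree_eq_zero.1 k2
    have hi : (C (b - a)⁻¹ : ℂ[X]) * C (b - a) = 1 := by
      rw [← C_mul, inv_mul_cancel₀ h3, C_1]
    have hba : (C (b - a) : ℂ[X]) = C b - C a := C_sub
    have e1 : q = C ((b - a)⁻¹ * (x - y)) := by
      rw [C_mul, C_sub, hx, hy]
      rw [hba] at hi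
      linear_combination (-q) * hi
    have e2 : p = C ((b - a)⁻¹ * (b * x - a * y)) := by
      rw [C_mul, C_sub, C_mul, C_mul, hx, hy]
      rw [hba] at hi
      linear_combination (-p) * hi
    rw [e1, e2]
    exact ⟨natDegree_C _, natDegree_C _⟩
  · intro h
    rw [div_eq_one_iff_eq (mul_ne_zero h4 h2)] at h
    have : (b - a) * (c - d) = 0 := by linear_combination h
    rcases mul_eq_zero.1 this with h' | h'
    · exact h3 h'
    · exact h6 h'
  · rw [isCoprime_mul_unit_left_left (isUnit_C.2 (isUnit_iff_ne_zero.2 h1)),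
      isCoprime_mul_unit_left_right (isUnit_C.2 (isUnit_iff_ne_zero.2 h2))]
    have := coprime_comb hco (a := 1) (b := -a) (c := 1) (d := -b) (by
      intro h; apply h3; linear_combination -h)
    simpa [sub_eq_add_neg] using this
  · have : C (b - c) * (p - C a * q) - C (a - c) * (p - C b * q) = C (b - a) * (p - C c * q) := by
      simp only [C_sub]; ring
    rw [this, isSquare_C_mul h3]
    exact hc
  · have hx : (C ((a - d) * (b - c) / ((b - d) * (a - c))) : ℂ[X]) * C (a - c) =
        C ((a - d) * (b - c) / (b - d)) := by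
      rw [← C_mul]; congr 1; field_simp
    have hx2 : (C ((a - d) * (b - c) / (b - d)) : ℂ[X]) * C (b - d) = C (a - d) * C (b - c) := by
      rw [← C_mul, ← C_mul]; congr 1; field_simp
    have hx3 : (C ((b - c) * (b - a) / (b - d)) : ℂ[X]) * C (b - d) = C (b - c) * C (b - a) := by
      rw [← C_mul, ← C_mul]; congr 1; field_simp
    have : C (b - c) * (p - C a * q) - C ((a - d) * (b - c) / ((b - d) * (a - c))) *
        (C (a - c) * (p - C b * q)) = C ((b - c) * (b - a) / (b - d)) * (p - C d * q) := by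
      have hne : (C (b - d) : ℂ[X]) ≠ 0 := C_ne_zero.2 h4
      apply mul_right_cancel₀ hne
      rw [← mul_assoc (C ((a - d) * (b - c) / ((b - d) * (a - c)))), hx]
      have g2 : (C (b - a) : ℂ[X]) = C b - C a := C_sub
      have g3 : (C (b - d) : ℂ[X]) = C b - C d := C_sub
      have g4 : (C (a - d) : ℂ[X]) = C a - C d := C_sub
      linear_combination (-(p - C b * q)) * hx2 - (p - C d * q) * hx3 +
        C (b - c) * ((p - C a * q) * g3 - (p - C b * q) * g4 - (p - C d * q) * g2)
    rw [this, isSquare_C_mul]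
    · exact hd
    · exact div_ne_zero (mul_ne_zero h1 h3) h4

end Pool.Agent.Lib.MP_a24e3f_co.M4
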