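import Pool.Agent.Lib.MP_a24e3f_co.Prime
import Pool.Agent.Lib.MP_a24e3f_co.M4.FourSq

/-!
# Two conics: a nonconstant rational function cannot have rational distance functions to two pairs

If `N² + κ M²` is a square of a polynomial and `N / M` is not constant, then
`(N - v M)² + μ M²` is not a constant times a square, unless `(v, μ) = (0, κ)`.
-/

set_option autoImplicit false

namespace Pool.Agent.Lib.MP_a24e3f_co.M4

open Polynomial

theorem simple_part {F : ℚ[X]} (hF : ∀ (c : ℂ) (Z : ℂ[X]), F.map (algebraMap ℚ ℂ) ≠ C c * Z ^ 2) :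
    ∃ G H : ℚ[X], F = G * H ^ 2 ∧ H ≠ 0 ∧ HasSimpleRoot G := by
  have hF0 : F ≠ 0 := by
    rintro rfl
    exact hF 0 0 (by simp)
  obtain ⟨G, H, h1, h2⟩ := exists_sq_mul_squarefree F.natDegree F le_rfl hF0
  have hH : H ≠ 0 := by
    rintro rfl
    apply hF0
    rw [h1]
    ring
  refine ⟨G, H, h1, hH, ?_⟩
  have hsep : G.Separable := PerfectField.separable_iff_squarefree.2 h2
  have hdeg : (G.map (algebraMap ℚ ℂ)).degree ≠ 0 := by
    intro h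
    rw [degree_map] at h
    obtain ⟨c, rfl⟩ := natDegree_eq_zero.1 (natDegree_eq_of_degree_eq_some h)
    apply hF (c : ℂ) (H.map (algebraMap ℚ ℂ))
    rw [h1]
    simp
  obtain ⟨z, hz⟩ := IsAlgClosed.exists_root (G.map (algebraMap ℚ ℂ)) hdeg
  have hz' : aeval z G = 0 := by
    rw [aeval_def, ← eval_map]
    exact hz
  exact ⟨z, hz', hsep.aeval_derivative_ne_zero hz'⟩

lemma imag_eq {k m : ℂ} {v κ μ : ℚ} (hμ : 0 < μ) (hk : k ^ 2 = -(κ : ℂ)) (hm : m ^ 2 = -(μ : ℂ))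
    (h : k = (v : ℂ) + m) : v = 0 ∧ κ = μ := by
  by_cases hv : v = 0
  · refine ⟨hv, ?_⟩
    rw [h, hv] at hk
    have : (κ : ℂ) = (μ : ℂ) := by
      push_cast at hk
      linear_combination hk - hm
    exact_mod_cast this
  · exfalso
    have hv' : (v : ℂ) ≠ 0 := by exact_mod_cast hv
    have h1 : m = (((μ - κ - v ^ 2) / (2 * v) : ℚ) : ℂ) := by
      push_cast
      field_simp
      rw [h] at hk
      linear_combination hk - hm
    rw [h1] at hm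
    have h2 : ((μ - κ - v ^ 2) / (2 * v)) ^ 2 = -μ := by exact_mod_cast hm
    have h3 := sq_nonneg ((μ - κ - v ^ 2) / (2 * v))
    linarith

lemma exists_coprime_quot (p q : ℂ[X]) (hq : q ≠ 0) :
    ∃ g p1 q1 : ℂ[X], g ≠ 0 ∧ p = g * p1 ∧ q = g * q1 ∧ IsCoprime p1 q1 := by
  obtain ⟨g, hg⟩ := IsPrincipalIdealRing.principal (Ideal.span ({p, q} : Set ℂ[X]))
  rw [Ideal.submodule_span_eq] at hg
  have hp : p ∈ Ideal.span ({g} : Set ℂ[X]) := by
    rw [← hg]; exact Ideal.subset_span (by simp)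
  have hqm : q ∈ Ideal.span ({g} : Set ℂ[X]) := by
    rw [← hg]; exact Ideal.subset_span (by simp)
  obtain ⟨p1, hp1⟩ := Ideal.mem_span_singleton.1 hp
  obtain ⟨q1, hq1⟩ := Ideal.mem_span_singleton.1 hqm
  have hgm : g ∈ Ideal.span ({p, q} : Set ℂ[X]) := by
    rw [hg]; exact Ideal.mem_span_singleton_self g
  obtain ⟨x, y, hxy⟩ := Ideal.mem_span_pair.1 hgm
  have hg0 : g ≠ 0 := by
    rintro rfl
    exact hq (by rw [hq1, zero_mul])
  refine ⟨g, p1, q1, hg0, hp1, hq1, x, y, ?_⟩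
  apply mul_left_cancel₀ hg0
  rw [mul_one]
  conv_rhs => rw [← hxy]
  rw [hp1, hq1]
  ring

theorem pencil_ne {N M Y : ℚ[X]} {κ : ℚ} (hκ : 0 < κ) (h : N ^ 2 + C κ * M ^ 2 = Y ^ 2)
    (hind : ∀ A B : ℂ, C A * N.map (algebraMap ℚ ℂ) + C B * M.map (algebraMap ℚ ℂ) = 0 →
      A = 0 ∧ B = 0) {v μ : ℚ} (hμ : 0 < μ) (hne : ¬ (v = 0 ∧ κ = μ)) (c : ℂ) (Z : ℂ[X]) :
    ((N - C v * M) ^ 2 + C μ * M ^ 2).map (algebraMap ℚ ℂ) ≠ C c * Z ^ 2 := by
  intro hcon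
  obtain ⟨p, hp⟩ : ∃ p, p = N.map (algebraMap ℚ ℂ) := ⟨_, rfl⟩
  obtain ⟨q, hq⟩ : ∃ q, q = M.map (algebraMap ℚ ℂ) := ⟨_, rfl⟩
  obtain ⟨y, hy⟩ : ∃ y, y = Y.map (algebraMap ℚ ℂ) := ⟨_, rfl⟩
  rw [← hp, ← hq] at hind
  have e1 : p ^ 2 + C (κ : ℂ) * q ^ 2 = y ^ 2 := by
    rw [hp, hq, hy]
    have := congrArg (Polynomial.map (algebraMap ℚ ℂ)) h
    simpa using this
  obtain ⟨c', hc'⟩ := IsAlgClosed.exists_pow_nat_eq c (n := 2) two_pos
  have e2 : (p - C (v : ℂ) * q) ^ 2 + C (μ : ℂ) * q ^ 2 = (C c' * Z) ^ 2 := by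
    rw [mul_pow, ← C_pow, hc', ← hcon, hp, hq]
    simp
  obtain ⟨k, hk⟩ := IsAlgClosed.exists_pow_nat_eq (-(κ : ℂ)) (n := 2) two_pos
  obtain ⟨m, hm⟩ := IsAlgClosed.exists_pow_nat_eq (-(μ : ℂ)) (n := 2) two_pos
  have hq0 : q ≠ 0 := by
    rintro h0
    have := hind 0 1 (by rw [h0]; simp)
    exact one_ne_zero this.2
  obtain ⟨g, p1, q1, hg0, ep, eq', hco⟩ := exists_coprime_quot p q hq0
  have hdiv : ∀ w z : ℂ[X], g ^ 2 * w = z ^ 2 → ∃ z1, w = z1 ^ 2 := by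
    intro w z hwz
    have h1 : g ^ 2 ∣ z ^ 2 := ⟨w, hwz.symm⟩
    obtain ⟨z1, hz1⟩ := (IsIntegrallyClosed.pow_dvd_pow_iff (two_ne_zero)).1 h1
    refine ⟨z1, ?_⟩
    have hg2 : g ^ 2 ≠ 0 := pow_ne_zero 2 hg0
    apply mul_left_cancel₀ hg2
    rw [hwz, hz1]
    ring
  have hk0 : k ≠ 0 := by
    rintro rfl
    have : (κ : ℂ) = 0 := by linear_combination hk
    exact hκ.ne' (by exact_mod_cast this)
  have hm0 : m ≠ 0 := by
    rintro rfl
    have : (μ : ℂ) = 0 := by linear_combination hm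
    exact hμ.ne' (by exact_mod_cast this)
  obtain ⟨y1, hy1⟩ := hdiv (p1 ^ 2 + C (κ : ℂ) * q1 ^ 2) y (by rw [← e1, ep, eq']; ring)
  obtain ⟨z1, hz1⟩ := hdiv ((p1 - C (v : ℂ) * q1) ^ 2 + C (μ : ℂ) * q1 ^ 2) (C c' * Z)
    (by rw [← e2, ep, eq']; ring)
  have hCk : (C k : ℂ[X]) ^ 2 = -C (κ : ℂ) := by rw [← C_pow, hk, C_neg]
  have hCm : (C m : ℂ[X]) ^ 2 = -C (μ : ℂ) := by rw [← C_pow, hm, C_neg]
  have c1 : IsCoprime (p1 - C k * q1) (p1 - C (-k) * q1) := by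
    have := coprime_comb hco (a := 1) (b := -k) (c := 1) (d := k) (by
      intro h0; apply hk0; linear_combination h0 / 2)
    simpa [sub_eq_add_neg] using this
  have c2 : IsCoprime (p1 - C ((v : ℂ) + m) * q1) (p1 - C ((v : ℂ) + -m) * q1) := by
    have := coprime_comb hco (a := 1) (b := -((v : ℂ) + m)) (c := 1) (d := -((v : ℂ) + -m)) (by
      intro h0; apply hm0; linear_combination h0 / 2)
    rw [C_neg, C_neg, C_1, one_mul, neg_mul, neg_mul, ← sub_eq_add_neg, ← sub_eq_add_neg] at this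
    exact this
  have f1 : (p1 - C k * q1) * (p1 - C (-k) * q1) = y1 ^ 2 := by
    rw [← hy1, C_neg]
    linear_combination (-q1 ^ 2) * hCk
  have f2 : (p1 - C ((v : ℂ) + m) * q1) * (p1 - C ((v : ℂ) + -m) * q1) = z1 ^ 2 := by
    rw [← hz1, C_add, C_add, C_neg]
    linear_combination (-q1 ^ 2) * hCm
  have s1 := isSquare_of_coprime c1 f1
  have s2 := isSquare_of_coprime c1.symm (by rw [mul_comm]; exact f1)
  have s3 := isSquare_of_coprime c2 f2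
  have s4 := isSquare_of_coprime c2.symm (by rw [mul_comm]; exact f2)
  have hk' : (-k) ^ 2 = -(κ : ℂ) := by rw [neg_sq]; exact hk
  have hm' : (-m) ^ 2 = -(μ : ℂ) := by rw [neg_sq]; exact hm
  obtain ⟨d1, d2⟩ := four_squares hco (a := k) (b := -k) (c := (v : ℂ) + m) (d := (v : ℂ) + -m)
    (by intro h0; apply hk0; linear_combination h0 / 2)
    (fun h0 => hne (imag_eq hμ hk hm h0)) (fun h0 => hne (imag_eq hμ hk hm' h0))
    (fun h0 => hne (imag_eq hμ hk' hm h0)) (fun h0 => hne (imag_eq hμ hk' hm' h0))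
    (by intro h0; apply hm0; linear_combination h0 / 2) s1 s2 s3 s4
  obtain ⟨x, hx⟩ := natDegree_eq_zero.1 d1
  obtain ⟨w, hw⟩ := natDegree_eq_zero.1 d2
  obtain ⟨g1, g2⟩ := hind w (-x) (by
    rw [ep, eq', ← hx, ← hw, C_neg]
    ring)
  rw [← hx, ← hw, g1, neg_eq_zero.1 g2, C_0] at hco
  exact not_isCoprime_zero_zero hco

end Pool.Agent.Lib.MP_a24e3f_co.M4
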