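import Pool.Agent.Lib.MP_a24e3f_co.Extend
import Pool.Agent.Lib.MP_a24e3f_co.M4.Pencil

/-!
# The focus of a parabola

Let `A = (α, β √D)`, `B = (α, -β √D)` and `z = (δ, ε √D)`. The focus `x = (t, 0)` of the parabola with
horizontal axis through `A`, `B`, `z` has rational distance from all three points. Here `z` moves in
the family of points at rational distance from three given points.
-/

set_option autoImplicit false

namespace Pool.Agent.Lib.MP_a24e3f_co.M4

open Polynomial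

section polys

variable (D : ℚ) (b g dA dC : Pt) (β : ℚ)

/-- numerator of the first coordinate -/
noncomputable def Nx (d : Pt) : ℚ[X] :=
  q1 D b g d * (1 - C D * X ^ 2) + C D * (2 * X) * q2 D b g d
/-- numerator of the second coordinate -/
noncomputable def Ny (d : Pt) : ℚ[X] :=
  q2 D b g d * (1 - C D * X ^ 2) - 2 * X * q1 D b g d
/-- denominator -/
noncomputable def dn : ℚ[X] := bP D b g * (1 + C D * X ^ 2) ^ 2
/-- numerator of `δ - α` -/
noncomputable def Dl : ℚ[X] := -Nx D b g dA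
/-- numerator of `ε` -/
noncomputable def Ep : ℚ[X] := -Ny D b g dC
/-- numerator of `h` -/
noncomputable def H1 : ℚ[X] := C D * (Ep D b g dC ^ 2 - C (β ^ 2) * dn D b g ^ 2)
/-- denominator of `h` -/
noncomputable def H2 : ℚ[X] := 2 * Dl D b g dA * dn D b g
/-- numerator of `t - α` -/
noncomputable def NN : ℚ[X] := H1 D b g dC β ^ 2 - C (D * β ^ 2) * H2 D b g dA ^ 2
/-- denominator of `t - α` -/
noncomputable def MM : ℚ[X] := 2 * H1 D b g dC β * H2 D b g dA
/-- numerator of the distance -/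
noncomputable def YY : ℚ[X] := H1 D b g dC β ^ 2 + C (D * β ^ 2) * H2 D b g dA ^ 2

theorem conic : NN D b g dA dC β ^ 2 + C (D * β ^ 2) * MM D b g dA dC β ^ 2 =
    YY D b g dA dC β ^ 2 := by
  unfold NN MM YY
  ring

theorem newW_sub' (d : Pt) (s : ℚ) (hb : (bP D b g).eval s ≠ 0) (hs : 1 + D * s ^ 2 ≠ 0) :
    newW D b g s - d = (-(Nx D b g d).eval s / (dn D b g).eval s,
      -(Ny D b g d).eval s / (dn D b g).eval s) := by
  rw [newW_sub D b g d s hb hs]
  unfold Nx Ny dn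
  simp only [eval_add, eval_sub, eval_mul, eval_pow, eval_C, eval_X, eval_one, eval_ofNat]

/-- the special parameter: a root of `dir D b` -/
theorem special (hD : 0 < D) (hA : cA b g ≠ 0) (hb2 : b.2 ≠ 0) : ∃ s : ℂ,
    aeval s (dn D b g) = 0 ∧ aeval s (Ep D b g dC) ≠ 0 := by
  have hA' : (cA b g : ℂ) ≠ 0 := by exact_mod_cast hA
  have hb : b ≠ 0 := by rintro rfl; exact hb2 rfl
  obtain ⟨s, hs⟩ := dir_root hD b
  have hn : (D : ℂ) * (g.2 : ℂ) * s ^ 2 + 2 * (g.1 : ℂ) * s - (g.2 : ℂ) ≠ 0 :=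
    fun hn => no_common hA' hn hs
  have hb2' : (b.2 : ℂ) ≠ 0 := by exact_mod_cast hb2
  have hs0 : s ≠ 0 := by
    rintro rfl
    apply hb2'
    linear_combination -hs
  have hN : ((b.1 : ℂ) ^ 2 + D * (b.2 : ℂ) ^ 2) ≠ 0 := by
    have := (nm_pos hD hb).ne'
    unfold nm at this
    exact_mod_cast this
  refine ⟨s, ?_, ?_⟩
  · unfold dn bP dir
    simp only [map_add, map_sub, map_mul, map_pow, aeval_C, aeval_X, map_one, map_ofNat,
      eq_ratCast]
    rw [hs]
    ring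
  · intro h0
    unfold Ep Ny q1 q2 A1 A2 bP dir at h0
    simp only [map_add, map_sub, map_mul, map_pow, aeval_C, aeval_X, map_one, map_ofNat,
      map_neg, eq_ratCast, hs] at h0
    set n := (D : ℂ) * (g.2 : ℂ) * s ^ 2 + 2 * (g.1 : ℂ) * s - (g.2 : ℂ)
    clear_value n
    have h1 : n ^ 4 * (2 * s * ((b.1 : ℂ) ^ 2 + D * (b.2 : ℂ) ^ 2)) = 0 := by
      linear_combination -h0 + (2 * (b.1 : ℂ) * n ^ 4) * hs
    rcases mul_eq_zero.1 h1 with h2 | h2
    · exact hn (pow_eq_zero_iff (by norm_num) |>.1 h2)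
    · rcases mul_eq_zero.1 h2 with h3 | h3
      · rcases mul_eq_zero.1 h3 with h4 | h4
        · exact two_ne_zero h4
        · exact hs0 h4
      · exact hN h3

theorem Nx_ne (hD : 0 < D) (hA : cA b g ≠ 0) (d : Pt) : Nx D b g d ≠ 0 := by
  have h := TP_ne D b g d hD ((0, 1) : Pt) hA (by
    intro h
    have := congrArg Prod.snd h
    simp at this)
  intro h0
  apply h
  unfold TP
  unfold Nx at h0
  simp only [C_0, C_1, mul_one, mul_zero, sub_zero]
  exact h0

theorem dn_ne (hD : 0 < D) (hA : cA b g ≠ 0) : dn D b g ≠ 0 := by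
  unfold dn
  apply mul_ne_zero (bP_ne D b g hA)
  apply pow_ne_zero
  intro h
  have := congrArg (Polynomial.eval 0) h
  simp at this

theorem special' (hD : 0 < D) (hA : cA b g ≠ 0) (hb2 : b.2 ≠ 0) : ∃ s : ℂ,
    aeval s (dn D b g) = 0 ∧ aeval s (MM D b g dA dC β) = 0 ∧
    aeval s (Ep D b g dC) ≠ 0 ∧ aeval s (H1 D b g dC β) ≠ 0 ∧
    aeval s (NN D b g dA dC β) ≠ 0 := by
  obtain ⟨s, h1, h2⟩ := special D b g dC hD hA hb2
  have hD' : (D : ℂ) ≠ 0 := by exact_mod_cast hD.ne'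
  have e1 : aeval s (H1 D b g dC β) = (D : ℂ) * aeval s (Ep D b g dC) ^ 2 := by
    unfold H1
    simp only [map_mul, map_sub, map_pow, aeval_C, eq_ratCast, h1]
    ring
  have e2 : aeval s (H2 D b g dA) = 0 := by
    unfold H2
    simp only [map_mul, h1, mul_zero]
  have e3 : aeval s (H1 D b g dC β) ≠ 0 := by
    rw [e1]
    exact mul_ne_zero hD' (pow_ne_zero 2 h2)
  refine ⟨s, h1, ?_, h2, e3, ?_⟩
  · unfold MM
    simp only [map_mul, e2, mul_zero]
  · unfold NN
    simp only [map_sub, map_mul, map_pow, e2]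
    rw [zero_pow two_ne_zero, mul_zero, sub_zero]
    exact pow_ne_zero 2 e3

theorem MM_ne (hD : 0 < D) (hA : cA b g ≠ 0) (hb2 : b.2 ≠ 0) : MM D b g dA dC β ≠ 0 := by
  obtain ⟨s, -, -, -, h, -⟩ := special' D b g dA dC β hD hA hb2
  unfold MM H2 Dl
  refine mul_ne_zero (mul_ne_zero two_ne_zero ?_) (mul_ne_zero (mul_ne_zero two_ne_zero
    (neg_ne_zero.2 (Nx_ne D b g hD hA dA))) (dn_ne D b g hD hA))
  intro h0
  apply h
  rw [h0]
  simp

theorem indep (hD : 0 < D) (hA : cA b g ≠ 0) (hb2 : b.2 ≠ 0) (x y : ℂ)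
    (h : C x * (NN D b g dA dC β).map (algebraMap ℚ ℂ) +
      C y * (MM D b g dA dC β).map (algebraMap ℚ ℂ) = 0) : x = 0 ∧ y = 0 := by
  obtain ⟨s, -, h2, -, -, h5⟩ := special' D b g dA dC β hD hA hb2
  have e1 := congrArg (Polynomial.eval s) h
  simp only [eval_add, eval_mul, eval_C, eval_zero, eval_map, ← aeval_def] at e1
  rw [h2, mul_zero, add_zero] at e1
  have hx : x = 0 := (mul_eq_zero.1 e1).resolve_right h5
  refine ⟨hx, ?_⟩
  rw [hx, C_0, zero_mul, zero_add] at h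
  rcases mul_eq_zero.1 h with h3 | h3
  · exact C_eq_zero.1 h3
  · exfalso
    rw [Polynomial.map_eq_zero_iff (algebraMap ℚ ℂ).injective] at h3
    exact MM_ne D b g dA dC β hD hA hb2 h3

theorem indepQ (hD : 0 < D) (hA : cA b g ≠ 0) (hb2 : b.2 ≠ 0) (x y : ℚ) (hxy : x ≠ 0 ∨ y ≠ 0) :
    C x * NN D b g dA dC β + C y * MM D b g dA dC β ≠ 0 := by
  intro h
  have h1 := congrArg (Polynomial.map (algebraMap ℚ ℂ)) h
  simp only [Polynomial.map_add, Polynomial.map_mul, map_C, Polynomial.map_zero, eq_ratCast] at h1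
  obtain ⟨h2, h3⟩ := indep D b g dA dC β hD hA hb2 (x : ℂ) (y : ℂ) h1
  rcases hxy with h4 | h4
  · exact h4 (by exact_mod_cast h2)
  · exact h4 (by exact_mod_cast h3)

/-- the polynomial of the line through the point `u = (α + v, w)` and `z` -/
noncomputable def KK (v w : ℚ) : ℚ[X] :=
  C w * (Dl D b g dA - C v * dn D b g) * MM D b g dA dC β +
    (NN D b g dA dC β - C v * MM D b g dA dC β) * (Ep D b g dC - C w * dn D b g)

theorem KK_ne (hD : 0 < D) (hA : cA b g ≠ 0) (hb2 : b.2 ≠ 0) (v w : ℚ) :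
    KK D b g dA dC β v w ≠ 0 := by
  obtain ⟨s, h1, h2, h3, -, h5⟩ := special' D b g dA dC β hD hA hb2
  intro h
  have e1 : aeval s (KK D b g dA dC β v w) = 0 := by rw [h]; simp
  unfold KK at e1
  simp only [map_add, map_mul, map_sub, h1, h2, mul_zero, sub_zero, zero_add] at e1
  exact mul_ne_zero h5 h3 e1

/-- the polynomial of the squared distance from `(α + v, w)` to the focus -/
noncomputable def FF (v w : ℚ) : ℚ[X] :=
  (NN D b g dA dC β - C v * MM D b g dA dC β) ^ 2 + C (D * w ^ 2) * MM D b g dA dC β ^ 2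

theorem FF_part (hD : 0 < D) (hA : cA b g ≠ 0) (hb2 : b.2 ≠ 0) (hβ : β ≠ 0) (v w : ℚ)
    (hw : w ≠ 0) (hne : ¬ (v = 0 ∧ w ^ 2 = β ^ 2)) :
    ∃ G H : ℚ[X], FF D b g dA dC β v w = G * H ^ 2 ∧ H ≠ 0 ∧ HasSimpleRoot G := by
  apply simple_part
  intro c Z
  have hκ : 0 < D * β ^ 2 := by positivity
  have hμ : 0 < D * w ^ 2 := by positivity
  exact pencil_ne hκ (conic D b g dA dC β) (indep D b g dA dC β hD hA hb2) hμ
    (by
      rintro ⟨h1, h2⟩
      apply hne
      refine ⟨h1, ?_⟩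
      have := mul_left_cancel₀ hD.ne' h2
      exact this.symm) c Z

end polys

end Pool.Agent.Lib.MP_a24e3f_co.M4
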